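import Pool.Agent.H612.AffMain

/-! Affine projection from a fixed polynomial: for every fixed integer polynomial `p` in `k`
variables, deciding whether `p` is an affine projection of a given polynomial `g` is hard. -/

namespace Pool.Agent.NPC.J4H96.AffFixed

open ER H612

/-! ### Raw polynomials -/

/-- Product of raw polynomials. -/
def mulRaw (r s : List (Bool × List ℕ)) : List (Bool × List ℕ) :=
  r.flatMap fun p => s.map fun q => (xor p.1 q.1, p.2 ++ q.2)

theorem rawEval_cons (y : ℕ → ℝ) (p : Bool × List ℕ) (r : List (Bool × List ℕ)) :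
    rawEval y (p :: r) = (sgn p.1 : ℝ) * (p.2.map y).prod + rawEval y r := by
  simp [rawEval]

theorem rawEval_nil (y : ℕ → ℝ) : rawEval y [] = 0 := by simp [rawEval]

theorem rawEval_mulRaw (y : ℕ → ℝ) (r s : List (Bool × List ℕ)) :
    rawEval y (mulRaw r s) = rawEval y r * rawEval y s := by
  have h1 : ∀ (p : Bool × List ℕ) (q : List (Bool × List ℕ)),
      rawEval y (q.map fun p' => (xor p.1 p'.1, p.2 ++ p'.2)) =
        ((sgn p.1 : ℝ) * (p.2.map y).prod) * rawEval y q := by
    intro p q
    induction q with
    | nil => simp [rawEval]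
    | cons p' q ih =>
      rw [List.map_cons, rawEval_cons, rawEval_cons, ih, List.map_append, List.prod_append]
      have hs : (sgn (xor p.1 p'.1) : ℝ) = (sgn p.1 : ℝ) * (sgn p'.1 : ℝ) := by
        cases p.1 <;> cases p'.1 <;> simp [sgn]
      rw [hs]
      ring
  unfold mulRaw
  induction r with
  | nil => simp [rawEval]
  | cons p r ih =>
    rw [List.flatMap_cons, rawEval_append, ih, h1, rawEval_cons]
    ring

/-- Powers of raw polynomials. -/
def powRaw (r : List (Bool × List ℕ)) : ℕ → List (Bool × List ℕ)
  | 0 => [(false, [])]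
  | e + 1 => mulRaw r (powRaw r e)

theorem rawEval_powRaw (y : ℕ → ℝ) (r : List (Bool × List ℕ)) (e : ℕ) :
    rawEval y (powRaw r e) = rawEval y r ^ e := by
  induction e with
  | zero => simp [powRaw, rawEval, sgn]
  | succ e ih => rw [powRaw, rawEval_mulRaw, ih, pow_succ']

/-- All indices occurring are smaller than `n`. -/
def Below (n : ℕ) (r : List (Bool × List ℕ)) : Prop := ∀ p ∈ r, ∀ i ∈ p.2, i < n

theorem Below.mono {m n : ℕ} {r : List (Bool × List ℕ)} (h : Below m r) (hmn : m ≤ n) :
    Below n r := fun p hp i hi => (h p hp i hi).trans_le hmn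

theorem Below.append {n : ℕ} {r s : List (Bool × List ℕ)} (h : Below n r) (h' : Below n s) :
    Below n (r ++ s) := by
  intro p hp
  rcases List.mem_append.1 hp with hp | hp
  · exact h p hp
  · exact h' p hp

theorem Below.mulRaw {n : ℕ} {r s : List (Bool × List ℕ)} (h : Below n r) (h' : Below n s) :
    Below n (mulRaw r s) := by
  intro p hp i hi
  unfold AffFixed.mulRaw at hp
  rw [List.mem_flatMap] at hp
  obtain ⟨q, hq, hp⟩ := hp
  rw [List.mem_map] at hp
  obtain ⟨q', hq', rfl⟩ := hp
  simp only [List.mem_append] at hi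
  rcases hi with hi | hi
  · exact h q hq i hi
  · exact h' q' hq' i hi

theorem Below.powRaw {n : ℕ} {r : List (Bool × List ℕ)} (h : Below n r) (e : ℕ) :
    Below n (powRaw r e) := by
  induction e with
  | zero => intro p hp; simp [AffFixed.powRaw] at hp; subst hp; simp
  | succ e ih => exact h.mulRaw ih

theorem rawEval_congr {n : ℕ} {r : List (Bool × List ℕ)} (h : Below n r) {y z : ℕ → ℝ}
    (hyz : ∀ i < n, y i = z i) : rawEval y r = rawEval z r := by
  unfold rawEval
  congr 1
  apply List.map_congr_left
  intro p hp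
  congr 2
  apply List.map_congr_left
  intro i hi
  exact hyz i (h p hp i hi)

/-! ### Constraints -/

/-- The polynomial of a constraint; variable `i` becomes variable `k + V.idxOf i`. -/
def craw (k : ℕ) (V : List ℕ) : Con → List (Bool × List ℕ)
  | .one i => [(false, [k + V.idxOf i]), (true, [])]
  | .add i j l => [(false, [k + V.idxOf i]), (false, [k + V.idxOf j]), (true, [k + V.idxOf l])]
  | .mul i j l => [(false, [k + V.idxOf i, k + V.idxOf j]), (true, [k + V.idxOf l])]

theorem rawEval_craw_eq_zero (k : ℕ) (V : List ℕ) (y : ℕ → ℝ) (c : Con) :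
    rawEval y (craw k V c) = 0 ↔ c.Holds (fun i => y (k + V.idxOf i)) := by
  cases c with
  | one i =>
    simp only [craw, rawEval_cons, rawEval_nil, Con.Holds, sgn, List.map_cons, List.map_nil,
      List.prod_cons, List.prod_nil]
    constructor
    · intro h; simp at h; linarith
    · intro h; simp; linarith
  | add i j l =>
    simp only [craw, rawEval_cons, rawEval_nil, Con.Holds, sgn, List.map_cons, List.map_nil,
      List.prod_cons, List.prod_nil]
    constructor
    · intro h; simp at h; linarith
    · intro h; simp; linarith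
  | mul i j l =>
    simp only [craw, rawEval_cons, rawEval_nil, Con.Holds, sgn, List.map_cons, List.map_nil,
      List.prod_cons, List.prod_nil]
    constructor
    · intro h; simp at h; linarith
    · intro h; simp; linarith

/-- Sum of squares of the constraint polynomials. -/
def praw (k : ℕ) (V : List ℕ) (S : List Con) : List (Bool × List ℕ) :=
  S.flatMap fun c => mulRaw (craw k V c) (craw k V c)

theorem rawEval_praw (k : ℕ) (V : List ℕ) (y : ℕ → ℝ) (S : List Con) :
    rawEval y (praw k V S) = (S.map fun c => rawEval y (craw k V c) ^ 2).sum := by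
  unfold praw
  induction S with
  | nil => simp [rawEval]
  | cons c S ih =>
    rw [List.flatMap_cons, rawEval_append, ih, rawEval_mulRaw, List.map_cons, List.sum_cons]
    ring

theorem praw_nonneg (k : ℕ) (V : List ℕ) (y : ℕ → ℝ) (S : List Con) :
    0 ≤ rawEval y (praw k V S) := by
  rw [rawEval_praw]; exact sum_sq_nonneg _ _

theorem sat_of_praw {k : ℕ} {V : List ℕ} {y : ℕ → ℝ} {S : List Con}
    (h : rawEval y (praw k V S) = 0) : Sat S := by
  rw [rawEval_praw] at h
  exact ⟨_, fun c hc => (rawEval_craw_eq_zero k V y c).1 (sum_sq_eq_zero h c hc)⟩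

theorem holds_congr {v w : ℕ → ℝ} {c : Con} (h : ∀ i ∈ c.vars, v i = w i) :
    c.Holds v → c.Holds w := by
  cases c with
  | one i => simp only [Con.Holds]; intro h'; rw [← h i (by simp [Con.vars])]; exact h'
  | add i j l =>
    simp only [Con.Holds]; intro h'
    rw [← h i (by simp [Con.vars]), ← h j (by simp [Con.vars]), ← h l (by simp [Con.vars])]
    exact h'
  | mul i j l =>
    simp only [Con.Holds]; intro h'
    rw [← h i (by simp [Con.vars]), ← h j (by simp [Con.vars]), ← h l (by simp [Con.vars])]
    exact h'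

theorem praw_of_sat {k : ℕ} {S : List Con} {v : ℕ → ℝ} (hv : SysHolds v S) {y : ℕ → ℝ}
    (hy : ∀ i ∈ varsOf S, y (k + (varsOf S).idxOf i) = v i) :
    rawEval y (praw k (varsOf S) S) = 0 := by
  rw [rawEval_praw]
  apply List.sum_eq_zero
  intro r hr
  rw [List.mem_map] at hr
  obtain ⟨c, hc, rfl⟩ := hr
  have h1 : rawEval y (craw k (varsOf S) c) = 0 := by
    rw [rawEval_craw_eq_zero]
    exact holds_congr (fun i hi => (hy i (List.mem_flatMap.2 ⟨c, hc, hi⟩)).symm) (hv c hc)
  rw [h1]; norm_num

theorem below_craw {k : ℕ} {V : List ℕ} {c : Con} (h : ∀ i ∈ c.vars, i ∈ V) :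
    Below (k + V.length) (craw k V c) := by
  have h' : ∀ i ∈ c.vars, k + V.idxOf i < k + V.length := fun i hi =>
    Nat.add_lt_add_left (List.idxOf_lt_length_iff.2 (h i hi)) k
  intro p hp i hi
  cases c with
  | one a =>
    simp only [craw, List.mem_cons, List.not_mem_nil, or_false] at hp
    simp only [Con.vars, List.mem_cons, List.not_mem_nil, or_false] at h'
    rcases hp with rfl | rfl
    · simp only [List.mem_cons, List.not_mem_nil, or_false] at hi
      subst hi
      exact h' a rfl
    · simp at hi
  | add a b d =>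
    simp only [craw, List.mem_cons, List.not_mem_nil, or_false] at hp
    simp only [Con.vars, List.mem_cons, List.not_mem_nil, or_false] at h'
    rcases hp with rfl | rfl | rfl
    · simp only [List.mem_cons, List.not_mem_nil, or_false] at hi
      subst hi
      exact h' a (Or.inl rfl)
    · simp only [List.mem_cons, List.not_mem_nil, or_false] at hi
      subst hi
      exact h' b (Or.inr (Or.inl rfl))
    · simp only [List.mem_cons, List.not_mem_nil, or_false] at hi
      subst hi
      exact h' d (Or.inr (Or.inr rfl))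
  | mul a b d =>
    simp only [craw, List.mem_cons, List.not_mem_nil, or_false] at hp
    simp only [Con.vars, List.mem_cons, List.not_mem_nil, or_false] at h'
    rcases hp with rfl | rfl
    · simp only [List.mem_cons, List.not_mem_nil, or_false] at hi
      rcases hi with rfl | rfl
      · exact h' a (Or.inl rfl)
      · exact h' b (Or.inr (Or.inl rfl))
    · simp only [List.mem_cons, List.not_mem_nil, or_false] at hi
      subst hi
      exact h' d (Or.inr (Or.inr rfl))

theorem below_praw {k : ℕ} (S : List Con) :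
    Below (k + (varsOf S).length) (praw k (varsOf S) S) := by
  intro p hp
  unfold praw at hp
  rw [List.mem_flatMap] at hp
  obtain ⟨c, hc, hp⟩ := hp
  have h : Below (k + (varsOf S).length) (craw k (varsOf S) c) :=
    below_craw fun i hi => List.mem_flatMap.2 ⟨c, hc, hi⟩
  exact h.mulRaw h p hp

/-! ### The weight -/

/-- The raw polynomial `1 + x₀² + … + x_{k-1}²`. -/
def wraw (k : ℕ) : List (Bool × List ℕ) := (false, []) :: (List.range k).map fun i => (false, [i, i])

theorem rawEval_wraw (k : ℕ) (y : ℕ → ℝ) :
    rawEval y (wraw k) = 1 + ((List.range k).map fun i => y i ^ 2).sum := by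
  unfold wraw
  rw [rawEval_cons]
  simp only [sgn, List.map_nil, List.prod_nil]
  congr 1
  · simp
  · unfold rawEval
    rw [List.map_map]
    congr 1
    apply List.map_congr_left
    intro i _
    simp [sgn]; ring

theorem one_le_wraw (k : ℕ) (y : ℕ → ℝ) : 1 ≤ rawEval y (wraw k) := by
  rw [rawEval_wraw]
  have : 0 ≤ ((List.range k).map fun i => y i ^ 2).sum := List.sum_nonneg (by
    intro x hx
    rw [List.mem_map] at hx
    obtain ⟨c, _, rfl⟩ := hx
    positivity)
  linarith

theorem below_wraw (k : ℕ) : Below k (wraw k) := by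
  intro p hp i hi
  unfold wraw at hp
  rcases List.mem_cons.1 hp with rfl | hp
  · simp at hi
  · rw [List.mem_map] at hp
    obtain ⟨j, hj, rfl⟩ := hp
    rw [List.mem_range] at hj
    simp at hi
    subst hi
    exact hj

/-! ### Univariate restriction -/

open Polynomial in
/-- Substitution of univariate polynomials. -/
noncomputable def rawPoly (u : ℕ → ℝ[X]) (r : List (Bool × List ℕ)) : ℝ[X] :=
  (r.map fun p => C (sgn p.1 : ℝ) * (p.2.map u).prod).sum

theorem eval_rawPoly (u : ℕ → Polynomial ℝ) (r : List (Bool × List ℕ)) (t : ℝ) :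
    (rawPoly u r).eval t = rawEval (fun i => (u i).eval t) r := by
  unfold rawPoly rawEval
  induction r with
  | nil => simp
  | cons p r ih =>
    rw [List.map_cons, List.sum_cons, Polynomial.eval_add, ih, List.map_cons, List.sum_cons,
      Polynomial.eval_mul, Polynomial.eval_C]
    congr 2
    induction p.2 with
    | nil => simp
    | cons a l ih => simp [ih]

theorem natDegree_rawPoly_le {u : ℕ → Polynomial ℝ} (hu : ∀ i, (u i).natDegree ≤ 1)
    {r : List (Bool × List ℕ)} {D : ℕ} (hD : ∀ p ∈ r, p.2.length ≤ D) :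
    (rawPoly u r).natDegree ≤ D := by
  unfold rawPoly
  induction r with
  | nil => simp
  | cons p r ih =>
    rw [List.map_cons, List.sum_cons]
    refine (Polynomial.natDegree_add_le _ _).trans (max_le ?_ (ih fun q hq => hD q (by simp [hq])))
    refine (Polynomial.natDegree_C_mul_le _ _).trans ?_
    refine le_trans ?_ (hD p (by simp))
    induction p.2 with
    | nil => simp
    | cons a l ih =>
      rw [List.map_cons, List.prod_cons, List.length_cons]
      refine (Polynomial.natDegree_mul_le).trans ?_
      have := hu a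
      omega

theorem rawPoly_mulRaw (u : ℕ → Polynomial ℝ) (r s : List (Bool × List ℕ)) :
    rawPoly u (mulRaw r s) = rawPoly u r * rawPoly u s := by
  apply Polynomial.funext
  intro t
  rw [eval_rawPoly, rawEval_mulRaw, Polynomial.eval_mul, eval_rawPoly, eval_rawPoly]

theorem rawPoly_powRaw (u : ℕ → Polynomial ℝ) (r : List (Bool × List ℕ)) (e : ℕ) :
    rawPoly u (powRaw r e) = rawPoly u r ^ e := by
  apply Polynomial.funext
  intro t
  rw [eval_rawPoly, rawEval_powRaw, Polynomial.eval_pow, eval_rawPoly]

theorem rawPoly_append (u : ℕ → Polynomial ℝ) (r s : List (Bool × List ℕ)) :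
    rawPoly u (r ++ s) = rawPoly u r + rawPoly u s := by
  simp [rawPoly]

open Polynomial in
theorem coeff_two_sq (a b : ℝ) : ((C a * X + C b) * (C a * X + C b)).coeff 2 = a ^ 2 := by
  have h : (C a * X + C b) * (C a * X + C b) =
      C (a ^ 2) * X ^ 2 + C (a * b + a * b) * X ^ 1 + C (b ^ 2) * X ^ 0 := by
    simp only [map_mul, map_pow, map_add]
    ring
  rw [h, Polynomial.coeff_add, Polynomial.coeff_add, Polynomial.coeff_C_mul,
    Polynomial.coeff_C_mul, Polynomial.coeff_C_mul, Polynomial.coeff_X_pow,
    Polynomial.coeff_X_pow, Polynomial.coeff_X_pow]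
  simp

open Polynomial in
/-- The weight has degree at least two after a nonconstant substitution. -/
theorem two_le_natDegree_wraw {k : ℕ} {a b : ℕ → ℝ} {i : ℕ} (hi : i < k) (ha : a i ≠ 0) :
    2 ≤ (rawPoly (fun j => C (a j) * X + C (b j)) (wraw k)).natDegree := by
  apply Polynomial.le_natDegree_of_ne_zero
  have h1 : (rawPoly (fun j => C (a j) * X + C (b j)) (wraw k)).coeff 2 =
      ((List.range k).map fun j => a j ^ 2).sum := by
    unfold rawPoly wraw
    rw [List.map_cons, List.sum_cons, List.map_map, Polynomial.coeff_add]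
    have h0 : (C (sgn ((false, ([] : List ℕ)) : Bool × List ℕ).1 : ℝ) *
        (((false, ([] : List ℕ)) : Bool × List ℕ).2.map fun j => C (a j) * X + C (b j)).prod).coeff
          2 = 0 := by
      simp [sgn, Polynomial.coeff_one]
    rw [h0, zero_add]
    induction (List.range k) with
    | nil => simp
    | cons j l ih =>
      rw [List.map_cons, List.sum_cons, Polynomial.coeff_add, ih, List.map_cons, List.sum_cons]
      congr 1
      have h2 : ((fun p : Bool × List ℕ => C (sgn p.1 : ℝ) *
          (p.2.map fun j => C (a j) * X + C (b j)).prod) ∘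
          fun i => (false, [i, i])) j =
          (C (a j) * X + C (b j)) * (C (a j) * X + C (b j)) := by
        simp only [Function.comp_apply, List.map_cons, List.map_nil, List.prod_cons,
          List.prod_nil, sgn]
        simp
      rw [h2, coeff_two_sq]
  rw [h1]
  have h2 : ∀ l : List ℕ, i ∈ l → 0 < (l.map fun j => a j ^ 2).sum := by
    intro l
    induction l with
    | nil => simp
    | cons j l ih =>
      intro hm
      rw [List.map_cons, List.sum_cons]
      have hn : 0 ≤ (l.map fun j => a j ^ 2).sum := List.sum_nonneg (by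
        intro x hx
        rw [List.mem_map] at hx
        obtain ⟨c, _, rfl⟩ := hx
        positivity)
      rcases List.mem_cons.1 hm with rfl | hm
      · have : 0 < a i ^ 2 := by positivity
        linarith
      · have := ih hm
        have : 0 ≤ a j ^ 2 := by positivity
        linarith
  exact (h2 _ (List.mem_range.2 hi)).ne'

/-! ### The instance -/

/-- The list of variables of a monomial, with multiplicity. -/
def idxs {k : ℕ} (m : Fin k →₀ ℕ) : List ℕ :=
  (List.finRange k).flatMap fun i => List.replicate (m i) (i : ℕ)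

/-- The terms of a polynomial. -/
noncomputable def termsOf {k : ℕ} (p : MvPolynomial (Fin k) ℤ) : List (ℤ × List ℕ) :=
  p.support.toList.map fun m => (p.coeff m, idxs m)

/-- The raw form of a list of terms. -/
def rawF (F : List (ℤ × List ℕ)) : List (Bool × List ℕ) :=
  F.flatMap fun t => List.replicate t.1.natAbs (decide (t.1 < 0), t.2)

theorem count_idxs {k : ℕ} (m : Fin k →₀ ℕ) (i : ℕ) :
    (idxs m).count i = if h : i < k then m ⟨i, h⟩ else 0 := by
  unfold idxs
  rw [List.count_flatMap]
  have h1 : (List.map (List.count i ∘ fun j : Fin k => List.replicate (m j) (j : ℕ))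
      (List.finRange k)).sum = ∑ j : Fin k, if (j : ℕ) = i then m j else 0 := by
    rw [← List.ofFn_eq_map, List.sum_ofFn]
    apply Finset.sum_congr rfl
    intro j _
    simp [List.count_replicate]
  rw [h1]
  split_ifs with h
  · have h2 : ∀ j : Fin k, (if (j : ℕ) = i then m j else 0) =
        if j = ⟨i, h⟩ then m j else 0 := by
      intro j
      by_cases hj : (j : ℕ) = i
      · rw [if_pos hj, if_pos (Fin.ext hj)]
      · rw [if_neg hj, if_neg (fun h' => hj (by rw [h']))]
    rw [Finset.sum_congr rfl fun j _ => h2 j, Finset.sum_ite_eq']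
    simp
  · apply Finset.sum_eq_zero
    intro j _
    rw [if_neg]
    intro hj
    exact h (hj ▸ j.2)

theorem idxs_lt {k : ℕ} (m : Fin k →₀ ℕ) : ∀ i ∈ idxs m, i < k := by
  intro i hi
  unfold idxs at hi
  rw [List.mem_flatMap] at hi
  obtain ⟨j, _, hj⟩ := hi
  rw [List.eq_of_mem_replicate hj]
  exact j.2

theorem termsOf_lt {k : ℕ} (p : MvPolynomial (Fin k) ℤ) :
    ∀ t ∈ termsOf p, ∀ i ∈ t.2, i < k := by
  intro t ht
  unfold termsOf at ht
  rw [List.mem_map] at ht
  obtain ⟨m, _, rfl⟩ := ht
  exact idxs_lt m

theorem below_rawF {k : ℕ} (p : MvPolynomial (Fin k) ℤ) : Below k (rawF (termsOf p)) := by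
  intro q hq
  unfold rawF at hq
  rw [List.mem_flatMap] at hq
  obtain ⟨t, ht, hq⟩ := hq
  rw [List.eq_of_mem_replicate hq]
  exact termsOf_lt p t ht

theorem rawEval_rawF (y : ℕ → ℝ) (F : List (ℤ × List ℕ)) :
    rawEval y (rawF F) = (F.map fun t => (t.1 : ℝ) * (t.2.map y).prod).sum := by
  unfold rawF
  induction F with
  | nil => simp [rawEval]
  | cons t F ih =>
    rw [List.flatMap_cons, rawEval_append, ih, List.map_cons, List.sum_cons]
    congr 1
    have h1 : ∀ (n : ℕ) (q : Bool × List ℕ), rawEval y (List.replicate n q) =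
        n * ((sgn q.1 : ℝ) * (q.2.map y).prod) := by
      intro n q
      induction n with
      | zero => simp [rawEval]
      | succ n ih => rw [List.replicate_succ, rawEval_cons, ih]; push_cast; ring
    rw [h1]
    simp only
    have h2 : (t.1.natAbs : ℝ) * (sgn (decide (t.1 < 0)) : ℝ) = (t.1 : ℝ) := by
      by_cases h : t.1 < 0
      · have h3 : (t.1.natAbs : ℤ) = -t.1 := by omega
        have h4 : ((t.1.natAbs : ℤ) : ℝ) = ((-t.1 : ℤ) : ℝ) := by rw [h3]
        rw [Int.cast_natCast] at h4
        rw [h4]
        simp [sgn, h]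
      · have h3 : (t.1.natAbs : ℤ) = t.1 := by omega
        have h4 : ((t.1.natAbs : ℤ) : ℝ) = ((t.1 : ℤ) : ℝ) := by rw [h3]
        rw [Int.cast_natCast] at h4
        rw [h4]
        simp [sgn, h]
    rw [← mul_assoc, h2]

/-- The description of `p` as a polynomial in `n` variables. -/
noncomputable def fdata {k : ℕ} (p : MvPolynomial (Fin k) ℤ) (n : ℕ) : PolyData :=
  (termsOf p).map fun t => (t.1, expv n t.2)

theorem aeval_fdata {k n : ℕ} (h : k ≤ n) (p : MvPolynomial (Fin k) ℤ) (x : Fin n → ℝ) :
    MvPolynomial.aeval x ((fdata p n).toPoly n) = rawEval (xt x) (rawF (termsOf p)) := by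
  rw [aeval_toPoly, rawEval_rawF]
  unfold fdata
  rw [List.map_map]
  congr 1
  apply List.map_congr_left
  intro t ht
  simp only [Function.comp_apply]
  rw [vval_expv x t.2 fun i hi => (termsOf_lt p t ht i hi).trans_le h]

theorem expv_idxs_inj {k n : ℕ} (h : k ≤ n) {m m' : Fin k →₀ ℕ}
    (he : expv n (idxs m) = expv n (idxs m')) : m = m' := by
  ext i
  have h1 : (expv n (idxs m)).getD i 0 = (expv n (idxs m')).getD i 0 := by rw [he]
  have h2 : ∀ m : Fin k →₀ ℕ, (expv n (idxs m)).getD i 0 = m i := by
    intro m
    have := getD_expv (n := n) (idxs m) ⟨i, i.2.trans_le h⟩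
    simp only at this
    rw [this, count_idxs, dif_pos i.2]
  rw [h2, h2] at h1
  exact h1

theorem valid_fdata {k n : ℕ} (h : k ≤ n) (p : MvPolynomial (Fin k) ℤ) : (fdata p n).Valid n := by
  constructor
  · intro t ht
    unfold fdata termsOf at ht
    rw [List.map_map, List.mem_map] at ht
    obtain ⟨m, hm, rfl⟩ := ht
    simp only [Function.comp_apply]
    rw [Finset.mem_toList, MvPolynomial.mem_support_iff] at hm
    exact ⟨hm, expv_length _ _⟩
  · unfold fdata termsOf
    rw [List.map_map, List.map_map]
    refine List.Nodup.map ?_ (Finset.nodup_toList _)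
    intro m m' hmm
    exact expv_idxs_inj h hmm

theorem toPoly_fdata {k n : ℕ} (h : k ≤ n) (p : MvPolynomial (Fin k) ℤ) :
    (fdata p n).toPoly n = MvPolynomial.rename (Fin.castLE h) p := by
  have h1 : MvPolynomial.rename (Fin.castLE h) p =
      (p.support.toList.map fun m => MvPolynomial.monomial (m.mapDomain (Fin.castLE h))
        (p.coeff m)).sum := by
    conv_lhs => rw [p.as_sum]
    rw [map_sum, Finset.sum_map_toList]
    apply Finset.sum_congr rfl
    intro m _
    rw [MvPolynomial.rename_monomial]
  rw [h1]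
  unfold PolyData.toPoly fdata termsOf
  rw [List.map_map, List.map_map]
  congr 1
  apply List.map_congr_left
  intro m _
  simp only [Function.comp_apply]
  have h2 : (Finsupp.equivFunOnFinite.symm fun i : Fin n => (expv n (idxs m)).getD i 0) =
      m.mapDomain (Fin.castLE h) := by
    ext i
    rw [Finsupp.equivFunOnFinite_symm_apply_apply, getD_expv, count_idxs]
    split_ifs with hi
    · have : i = Fin.castLE h ⟨i, hi⟩ := by ext; rfl
      conv_rhs => rw [this]
      rw [Finsupp.mapDomain_apply (Fin.castLE_injective h)]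
    · rw [Finsupp.mapDomain_notin_range]
      rintro ⟨j, rfl⟩
      exact hi (by simp)
  rw [h2]

/-- The exponent used. -/
def expo (F : List (ℤ × List ℕ)) : ℕ := ((rawF F).map fun q => q.2.length).sum + 1

/-- The number of variables. -/
def numV (k : ℕ) (S : List Con) : ℕ := k + (varsOf S).length

/-- Raw form of `g = p + (1 + x₀² + … + x_{k-1}²) ^ e * P`. -/
def graw (k : ℕ) (F : List (ℤ × List ℕ)) (S : List Con) : List (Bool × List ℕ) :=
  rawF F ++ mulRaw (powRaw (wraw k) (expo F)) (praw k (varsOf S) S)

/-- The instance of a system. -/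
noncomputable def inst {k : ℕ} (p : MvPolynomial (Fin k) ℤ) (S : List Con) : AffInst :=
  (numV k S, fdata p (numV k S), collect (numV k S) (graw k (termsOf p) S))

theorem below_graw {k : ℕ} (p : MvPolynomial (Fin k) ℤ) (S : List Con) :
    Below (numV k S) (graw k (termsOf p) S) := by
  refine ((below_rawF p).mono (Nat.le_add_right _ _)).append (Below.mulRaw ?_ (below_praw S))
  exact ((below_wraw k).powRaw _).mono (Nat.le_add_right _ _)

theorem rawEval_graw (k : ℕ) (F : List (ℤ × List ℕ)) (S : List Con) (y : ℕ → ℝ) :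
    rawEval y (graw k F S) = rawEval y (rawF F) +
      rawEval y (wraw k) ^ expo F * rawEval y (praw k (varsOf S) S) := by
  unfold graw
  rw [rawEval_append, rawEval_mulRaw, rawEval_powRaw]

theorem length_le_expo (F : List (ℤ × List ℕ)) : ∀ q ∈ rawF F, q.2.length ≤ expo F - 1 := by
  intro q hq
  unfold expo
  rw [Nat.add_sub_cancel]
  exact List.single_le_sum (by simp) _ (List.mem_map_of_mem (f := fun q => q.2.length) hq)

/-- Forward direction. -/
theorem aff_of_sat {k : ℕ} (p : MvPolynomial (Fin k) ℤ) {S : List Con} (h : Sat S) :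
    AffineProjection (inst p S) := by
  obtain ⟨v, hv⟩ := h
  suffices key : ∃ (A : Matrix (Fin (numV k S)) (Fin (numV k S)) ℝ) (b : Fin (numV k S) → ℝ),
      ∀ x : Fin (numV k S) → ℝ,
      MvPolynomial.aeval x ((fdata p (numV k S)).toPoly (numV k S)) =
      MvPolynomial.aeval (A.mulVec x + b)
        ((collect (numV k S) (graw k (termsOf p) S)).toPoly (numV k S)) from
    ⟨valid_fdata (Nat.le_add_right _ _) p, collect_valid _ _, key⟩
  refine ⟨Matrix.diagonal fun i => if (i : ℕ) < k then 1 else 0,
    fun i => if (i : ℕ) < k then 0 else v ((varsOf S).getD (i - k) 0), ?_⟩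
  intro x
  have hk : k ≤ numV k S := Nat.le_add_right _ _
  rw [aeval_fdata hk, aeval_collect _ (below_graw p S), rawEval_graw]
  set A : Matrix (Fin (numV k S)) (Fin (numV k S)) ℝ :=
    Matrix.diagonal fun i => if (i : ℕ) < k then 1 else 0 with hA
  set b : Fin (numV k S) → ℝ :=
    fun i => if (i : ℕ) < k then 0 else v ((varsOf S).getD (i - k) 0) with hb
  have h1 : rawEval (xt (A.mulVec x + b)) (praw k (varsOf S) S) = 0 := by
    apply praw_of_sat hv
    intro i hi
    have hlt := List.idxOf_lt_length_iff.2 hi
    have h2 : k + (varsOf S).idxOf i < numV k S := Nat.add_lt_add_left hlt k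
    rw [xt_of_lt _ h2, Pi.add_apply, hA, Matrix.mulVec_diagonal, hb]
    simp only
    rw [if_neg (by omega), if_neg (by omega), zero_mul, zero_add, Nat.add_sub_cancel_left]
    congr 1
    rw [List.getD_eq_getElem?_getD, List.getElem?_eq_getElem hlt]
    simp
  rw [h1, mul_zero, add_zero]
  apply rawEval_congr (below_rawF p)
  intro i hi
  have h2 : i < numV k S := hi.trans_le (Nat.le_add_right _ _)
  rw [xt_of_lt _ h2, xt_of_lt _ h2, Pi.add_apply, hA, Matrix.mulVec_diagonal, hb]
  simp only
  rw [if_pos hi, if_pos hi, one_mul, add_zero]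

/-- Backward direction. -/
theorem sat_of_aff' {k : ℕ} {p : MvPolynomial (Fin k) ℤ} {S : List Con}
    (A : Matrix (Fin (numV k S)) (Fin (numV k S)) ℝ) (b : Fin (numV k S) → ℝ)
    (hAb : ∀ x : Fin (numV k S) → ℝ,
      MvPolynomial.aeval x ((fdata p (numV k S)).toPoly (numV k S)) =
      MvPolynomial.aeval (Matrix.mulVec A x + b)
        ((collect (numV k S) (graw k (termsOf p) S)).toPoly (numV k S))) : Sat S := by
  have hk : k ≤ numV k S := Nat.le_add_right _ _
  by_contra hS
  have hP : ∀ y : ℕ → ℝ, rawEval y (praw k (varsOf S) S) ≠ 0 := fun y hy => hS (sat_of_praw hy)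
  have key : ∀ x : Fin (numV k S) → ℝ, rawEval (xt x) (rawF (termsOf p)) =
      rawEval (xt (Matrix.mulVec A x + b)) (rawF (termsOf p)) +
      rawEval (xt (Matrix.mulVec A x + b)) (wraw k) ^ expo (termsOf p) *
        rawEval (xt (Matrix.mulVec A x + b)) (praw k (varsOf S) S) := by
    intro x
    have := hAb x
    rwa [aeval_fdata hk, aeval_collect _ (below_graw p S), rawEval_graw] at this
  by_cases hA : ∃ (i : Fin (numV k S)) (j : Fin (numV k S)), (i : ℕ) < k ∧ A i j ≠ 0
  · obtain ⟨i, j, hi, hij⟩ := hA
    set al : ℕ → ℝ := fun l => if h : l < numV k S then A ⟨l, h⟩ j else 0 with hal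
    set be : ℕ → ℝ := xt b with hbe
    set u : ℕ → Polynomial ℝ := fun l => Polynomial.C (al l) * Polynomial.X +
      Polynomial.C (be l) with hu
    set w : ℕ → Polynomial ℝ := fun l => if l = j then Polynomial.X else 0 with hw
    have hxw : ∀ t : ℝ, xt (Pi.single j t : Fin (numV k S) → ℝ) = fun l => (w l).eval t := by
      intro t
      funext l
      by_cases hl : l < numV k S
      · rw [xt_of_lt _ hl, Pi.single_apply, hw]
        by_cases h1 : l = j
        · have : (⟨l, hl⟩ : Fin (numV k S)) = j := Fin.ext h1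
          simp [h1]
        · have : ¬ (⟨l, hl⟩ : Fin (numV k S)) = j := fun h => h1 (by rw [← h])
          simp [this, h1]
      · have h1 : ¬ l = j := fun h => hl (h ▸ j.2)
        simp [xt, hl, hw, h1]
    have hxu : ∀ t : ℝ, xt (Matrix.mulVec A (Pi.single j t) + b) = fun l => (u l).eval t := by
      intro t
      funext l
      by_cases hl : l < numV k S
      · rw [xt_of_lt _ hl, Pi.add_apply, Matrix.mulVec_single, hu]
        simp [hal, hl, hbe, xt]
      · simp [xt, hl, hu, hal, hbe]
    have hpoly : rawPoly w (rawF (termsOf p)) = rawPoly u (rawF (termsOf p)) +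
        rawPoly u (wraw k) ^ expo (termsOf p) * rawPoly u (praw k (varsOf S) S) := by
      apply Polynomial.funext
      intro t
      rw [Polynomial.eval_add, Polynomial.eval_mul, Polynomial.eval_pow, eval_rawPoly,
        eval_rawPoly, eval_rawPoly, eval_rawPoly, ← hxw, ← hxu]
      exact key _
    have hwd : ∀ l, (w l).natDegree ≤ 1 := by
      intro l
      simp only [hw]
      split_ifs <;> simp
    have hud : ∀ l, (u l).natDegree ≤ 1 := by
      intro l
      exact Polynomial.natDegree_linear_le
    have h1 := natDegree_rawPoly_le hwd (length_le_expo (termsOf p))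
    have h2 := natDegree_rawPoly_le hud (length_le_expo (termsOf p))
    have hP0 : rawPoly u (praw k (varsOf S) S) ≠ 0 := by
      intro h0
      have := eval_rawPoly u (praw k (varsOf S) S) 0
      rw [h0, Polynomial.eval_zero] at this
      exact hP _ this.symm
    have hW0 : rawPoly u (wraw k) ≠ 0 := by
      intro h0
      have := eval_rawPoly u (wraw k) 0
      rw [h0, Polynomial.eval_zero] at this
      have h3 := one_le_wraw k fun i => (u i).eval 0
      linarith
    have hi2 : 2 ≤ (rawPoly u (wraw k)).natDegree := by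
      apply two_le_natDegree_wraw hi
      simp only [hal]
      rw [dif_pos i.2]
      exact hij
    have h3 : rawPoly u (wraw k) ^ expo (termsOf p) * rawPoly u (praw k (varsOf S) S) =
        rawPoly w (rawF (termsOf p)) - rawPoly u (rawF (termsOf p)) := by
      rw [hpoly]; ring
    have h4 : (rawPoly u (wraw k) ^ expo (termsOf p) *
        rawPoly u (praw k (varsOf S) S)).natDegree ≤ expo (termsOf p) - 1 := by
      rw [h3]
      exact (Polynomial.natDegree_sub_le _ _).trans (max_le h1 h2)
    rw [Polynomial.natDegree_mul (pow_ne_zero _ hW0) hP0, Polynomial.natDegree_pow] at h4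
    have h5 : expo (termsOf p) * 2 ≤ expo (termsOf p) * (rawPoly u (wraw k)).natDegree :=
      Nat.mul_le_mul_left _ hi2
    have h6 : 1 ≤ expo (termsOf p) := Nat.le_add_left 1 _
    omega
  · push Not at hA
    have h1 := key b
    have h2 : rawEval (xt b) (rawF (termsOf p)) =
        rawEval (xt (Matrix.mulVec A b + b)) (rawF (termsOf p)) := by
      apply rawEval_congr (below_rawF p)
      intro i hi
      have hl : i < numV k S := hi.trans_le (Nat.le_add_right _ _)
      rw [xt_of_lt _ hl, xt_of_lt _ hl, Pi.add_apply]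
      have h3 : Matrix.mulVec A b ⟨i, hl⟩ = 0 := by
        simp only [Matrix.mulVec, dotProduct]
        apply Finset.sum_eq_zero
        intro j _
        rw [hA ⟨i, hl⟩ j hi, zero_mul]
      rw [h3, zero_add]
    rw [← h2] at h1
    have h3 : rawEval (xt (Matrix.mulVec A b + b)) (wraw k) ^ expo (termsOf p) *
        rawEval (xt (Matrix.mulVec A b + b)) (praw k (varsOf S) S) = 0 := by linarith
    rcases mul_eq_zero.1 h3 with h4 | h4
    · have h5 := one_le_wraw k (xt (Matrix.mulVec A b + b))
      have h6 : rawEval (xt (Matrix.mulVec A b + b)) (wraw k) = 0 :=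
        (pow_eq_zero_iff (by unfold expo; omega)).1 h4
      linarith
    · exact hP _ h4

theorem sat_of_aff {k : ℕ} {p : MvPolynomial (Fin k) ℤ} {S : List Con}
    (h : AffineProjection (inst p S)) : Sat S := by
  obtain ⟨_, _, A, b, hAb⟩ := h
  exact sat_of_aff' A b hAb

theorem sat_iff_aff {k : ℕ} (p : MvPolynomial (Fin k) ℤ) (S : List Con) :
    Sat S ↔ AffineProjection (inst p S) := ⟨aff_of_sat p, sat_of_aff⟩

/-! ### Polynomial time -/

section

variable {α : Type} [TEnc α]

theorem poly_mulRaw {r s : α → List (Bool × List ℕ)} (hr : Poly r) (hs : Poly s) :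
    Poly (fun a => mulRaw (r a) (s a)) := by
  unfold mulRaw
  refine Poly.flatMap
    (F := fun a p => (s a).map fun q => (xor p.1 q.1, p.2 ++ q.2)) hr ?_
  refine Poly.map
    (F := fun (x : α × Bool × List ℕ) q => (xor x.2.1 q.1, x.2.2 ++ q.2))
    (hs.comp (Poly.fst Poly.id)) ?_
  exact Poly.pair (Poly.xor (Poly.fst (Poly.snd (Poly.fst Poly.id)))
    (Poly.fst (Poly.snd Poly.id)))
    (Poly.append (Poly.snd (Poly.snd (Poly.fst Poly.id))) (Poly.snd (Poly.snd Poly.id)))

theorem craw_eq (k : ℕ) (V : List ℕ) (c : Con) : craw k V c =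
    if c.code.1 = 0 then [(false, [k + V.idxOf c.code.2.1]), (true, [])]
    else if c.code.1 = 1 then [(false, [k + V.idxOf c.code.2.1]),
      (false, [k + V.idxOf c.code.2.2.1]), (true, [k + V.idxOf c.code.2.2.2])]
    else [(false, [k + V.idxOf c.code.2.1, k + V.idxOf c.code.2.2.1]),
      (true, [k + V.idxOf c.code.2.2.2])] := by
  cases c <;> rfl

theorem poly_craw (k : ℕ) {V : α → List ℕ} {c : α → Con} (hV : Poly V) (hc : Poly c) :
    Poly (fun a => craw k (V a) (c a)) := by
  have h := poly_con_code hc
  have h1 := Poly.add (Poly.const k) (poly_idxOf hV (Poly.fst (Poly.snd h)))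
  have h2 := Poly.add (Poly.const k) (poly_idxOf hV (Poly.fst (Poly.snd (Poly.snd h))))
  have h3 := Poly.add (Poly.const k) (poly_idxOf hV (Poly.snd (Poly.snd (Poly.snd h))))
  have l1 : ∀ {x : α → ℕ}, Poly x → Poly (fun a => [x a]) := fun hx =>
    Poly.cons hx (Poly.const [])
  have l2 : ∀ {x y : α → ℕ}, Poly x → Poly y → Poly (fun a => [x a, y a]) := fun hx hy =>
    Poly.cons hx (l1 hy)
  refine (Poly.ite (Poly.decide_eq (Poly.fst h) (Poly.const 0))
    (Poly.cons (Poly.pair (Poly.const false) (l1 h1)) (Poly.const [(true, [])]))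
    (Poly.ite (Poly.decide_eq (Poly.fst h) (Poly.const 1))
      (Poly.cons (Poly.pair (Poly.const false) (l1 h1))
        (Poly.cons (Poly.pair (Poly.const false) (l1 h2))
          (Poly.cons (Poly.pair (Poly.const true) (l1 h3)) (Poly.const []))))
      (Poly.cons (Poly.pair (Poly.const false) (l2 h1 h2))
        (Poly.cons (Poly.pair (Poly.const true) (l1 h3))
          (Poly.const []))))).congr fun a => ?_
  exact (craw_eq k (V a) (c a)).symm

theorem poly_praw (k : ℕ) {S : α → List Con} (hS : Poly S) :
    Poly (fun a => praw k (varsOf (S a)) (S a)) := by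
  unfold praw
  refine Poly.flatMap
    (F := fun a c => mulRaw (craw k (varsOf (S a)) c) (craw k (varsOf (S a)) c)) hS ?_
  have h := poly_craw k ((poly_varsOf hS).comp (Poly.fst (Poly.id (α := α × Con))))
    (Poly.snd (Poly.id (α := α × Con)))
  exact poly_mulRaw h h

theorem upoly_numV (k : ℕ) {S : α → List Con} (hS : Poly S) : UPoly (fun a => numV k (S a)) :=
  UPoly.add (UPoly.const k) (UPoly.length (poly_varsOf hS))

theorem poly_inst {k : ℕ} (p : MvPolynomial (Fin k) ℤ) {S : α → List Con} (hS : Poly S) :
    Poly (fun a => inst p (S a)) := by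
  unfold inst
  refine Poly.pair (UPoly.toPoly (upoly_numV k hS)) (Poly.pair ?_ ?_)
  · unfold fdata
    refine Poly.map (F := fun a (t : ℤ × List ℕ) => (t.1, expv (numV k (S a)) t.2))
      (Poly.const _) ?_
    have h := UPoly.comp (upoly_numV k hS) (Poly.fst (Poly.id (α := α × ℤ × List ℕ)))
    exact Poly.pair (Poly.fst (Poly.snd Poly.id)) (poly_expv h (Poly.snd (Poly.snd Poly.id)))
  · refine poly_collect (upoly_numV k hS) ?_
    unfold graw
    exact Poly.append (Poly.const _) (poly_mulRaw (Poly.const _) (poly_praw k hS))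

end

/-- For every fixed polynomial `p` in `k` variables: affine projection is hard already on the
instances whose first polynomial is `p`. -/
theorem affine_hard_fixed {k : ℕ} (p : MvPolynomial (Fin k) ℤ) :
    ERHardWithin (fun I : AffInst => ∃ h : k ≤ I.1,
      I.2.1.toPoly I.1 = MvPolynomial.rename (Fin.castLE h) p) AffineProjection :=
  ERHardWithin.of_sys (poly_inst p Poly.id)
    (fun _ => ⟨Nat.le_add_right _ _, toPoly_fdata (Nat.le_add_right _ _) p⟩) (sat_iff_aff p)

end Pool.Agent.NPC.J4H96.AffFixed
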