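import Mathlib

/-! Differential posets, their rank functions, and the interval property. -/

set_option autoImplicit false

namespace Pool.Agent.J4H96.DPDef

/-- `P`, with rank function `ρ`, is an `r`-differential poset: it is locally finite with least
element of rank `0`, covers raise the rank by one, all ranks are finite, every element that
covers exactly `m` elements is covered by exactly `m + r` elements, and for distinct `x`, `y` the
number of elements covered by both equals the number of elements covering both. -/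
structure IsDifferential (r : ℕ) (P : Type) [PartialOrder P] [OrderBot P]
    [LocallyFiniteOrder P] (ρ : P → ℕ) : Prop where
  rank_bot : ρ ⊥ = 0
  rank_covBy : ∀ x y : P, x ⋖ y → ρ y = ρ x + 1
  rank_finite : ∀ n : ℕ, {x : P | ρ x = n}.Finite
  up_finite : ∀ x : P, {z : P | x ⋖ z}.Finite
  up_ncard : ∀ x : P, {z : P | x ⋖ z}.ncard = {z : P | z ⋖ x}.ncard + r
  common : ∀ x y : P, x ≠ y →
    {z : P | z ⋖ x ∧ z ⋖ y}.ncard = {z : P | x ⋖ z ∧ y ⋖ z}.ncard

/-- The set of all rank functions `n ↦ |P_n|` of `r`-differential posets. -/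
def RankFunctions (r : ℕ) : Set (ℕ → ℕ) :=
  {h | ∃ (P : Type) (_ : PartialOrder P) (_ : OrderBot P) (_ : LocallyFiniteOrder P)
    (ρ : P → ℕ), IsDifferential r P ρ ∧ ∀ n : ℕ, {x : P | ρ x = n}.ncard = h n}

/-- The Interval Property of a class of integer sequences. -/
def IntervalProperty (S : Set (ℕ → ℕ)) : Prop :=
  ∀ h ∈ S, ∀ h' ∈ S, ∀ i α : ℕ, 0 < α → (∀ j : ℕ, j ≠ i → h' j = h j) → h' i = h i + α →
    ∀ β : ℕ, β ≤ α → Function.update h i (h i + β) ∈ S

end Pool.Agent.J4H96.DPDef
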