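import Pool.Agent.J4H96.DPSound
import Pool.Agent.J4H96.DPDef

/-! Construction of a 1-differential poset from finitely many explicit ranks, continued by the
reflection extension. -/

set_option autoImplicit false

namespace Pool.Agent.J4H96.DP

open Pool.Agent.J4H96.DPDef

section Tab

variable (tab : List (List ℕ))

/-- Rank sizes. -/
def e : ℕ → ℕ
  | 0 => 1
  | 1 => (tab.getD 0 []).length
  | (n + 2) => if n + 1 < tab.length then (tab.getD (n + 1) []).length else e n + e (n + 1)

/-- `c n x y`: element `y` of rank `n + 1` covers element `x` of rank `n`. -/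
def c : ℕ → ℕ → ℕ → Bool
  | 0, x, y => ((tab.getD 0 []).getD y 0).testBit x
  | (n + 1), x, y =>
    if n + 1 < tab.length then ((tab.getD (n + 1) []).getD y 0).testBit x
    else if y < e tab n then c n y x else decide (y - e tab n = x)

def upSet (n x : ℕ) : Finset ℕ := (Finset.range (e tab (n + 1))).filter (fun z => c tab n x z = true)

def downSet (n x : ℕ) : Finset ℕ := (Finset.range (e tab n)).filter (fun w => c tab n w x = true)

/-- Transpose of a list of masks. -/
def umask (x : ℕ) : List ℕ → ℕ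
  | [] => 0
  | b :: bs => (if b.testBit x then 1 else 0) + 2 * umask x bs

def allPairs (Nu Nd : ℕ) : List (ℕ × ℕ) → Bool
  | [] => true
  | p :: ps => ps.all (fun q =>
      if p.1 &&& q.1 = 0 then p.2 &&& q.2 == 0
      else pcount Nu (p.1 &&& q.1) == pcount Nd (p.2 &&& q.2)) && allPairs Nu Nd ps

/-- Checks for the level between rank `n` and rank `n + 1`. -/
def levOk (utab : List (List ℕ)) (n : ℕ) : Bool :=
  decide ((tab.getD n []).length = e tab (n + 1))
    && decide (utab.getD n [] = (List.range (e tab n)).map (fun x => umask x (tab.getD n [])))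
    && (tab.getD n []).all (fun d => decide (0 < pcount (e tab n) d))

/-- Checks for rank `n + 1`. -/
def rkOk (utab : List (List ℕ)) (n : ℕ) : Bool :=
  ((utab.getD (n + 1) []).zip (tab.getD n [])).all (fun p =>
      pcount (e tab (n + 2)) p.1 == pcount (e tab n) p.2 + 1)
    && allPairs (e tab (n + 2)) (e tab n) ((utab.getD (n + 1) []).zip (tab.getD n []))

structure TabOk (utab : List (List ℕ)) : Prop where
  len : 0 < tab.length
  zero : tab.getD 0 [] = [1]
  lev : ∀ n < tab.length, levOk tab utab n = true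
  rk : ∀ n, n + 1 < tab.length → rkOk tab utab n = true

variable {tab}

lemma mem_upSet (n x z : ℕ) : z ∈ upSet tab n x ↔ z < e tab (n + 1) ∧ c tab n x z = true := by
  simp [upSet]

lemma mem_downSet (n x z : ℕ) : z ∈ downSet tab n x ↔ z < e tab n ∧ c tab n z x = true := by
  simp [downSet]

lemma testBit_umask (x : ℕ) : ∀ (l : List ℕ) (y : ℕ),
    (umask x l).testBit y = (l.getD y 0).testBit x
  | [], y => by simp [umask]
  | b :: bs, 0 => by
    rw [umask, List.getD_cons_zero, Nat.testBit_zero]
    by_cases h : b.testBit x = true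
    · rw [if_pos h, h]
      simp only [decide_eq_true_eq]
      omega
    · rw [if_neg h, Bool.eq_false_iff.mpr h]
      simp only [decide_eq_false_iff_not]
      omega
  | b :: bs, y + 1 => by
    rw [umask, List.getD_cons_succ, Nat.testBit_succ, ← testBit_umask x bs y]
    congr 1
    split_ifs <;> omega

lemma c_lt {n : ℕ} (hn : n < tab.length) (x y : ℕ) :
    c tab n x y = ((tab.getD n []).getD y 0).testBit x := by
  cases n with
  | zero => rfl
  | succ n => rw [c, if_pos hn]

lemma e_rec {n : ℕ} (hn : tab.length ≤ n + 1) : e tab (n + 2) = e tab n + e tab (n + 1) := by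
  rw [e, if_neg (by omega)]

lemma c_rec {n : ℕ} (hn : tab.length ≤ n + 1) (x y : ℕ) : c tab (n + 1) x y
    = if y < e tab n then c tab n y x else decide (y - e tab n = x) := by
  rw [c, if_neg (by omega)]

/-- In the reflection range the upper covers split. -/
lemma upSet_rec {n : ℕ} (hn : tab.length ≤ n + 1) (x : ℕ) (hx : x < e tab (n + 1)) :
    upSet tab (n + 1) x = downSet tab n x ∪ {e tab n + x} := by
  ext z
  rw [Finset.mem_union, mem_upSet, mem_downSet, e_rec hn, c_rec hn]
  simp only [Finset.mem_singleton]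
  by_cases hz : z < e tab n
  · rw [if_pos hz]
    constructor
    · rintro ⟨_, h⟩
      exact Or.inl ⟨hz, h⟩
    · rintro (⟨_, h⟩ | h)
      · exact ⟨by omega, h⟩
      · omega
  · rw [if_neg hz]
    constructor
    · rintro ⟨h1, h2⟩
      right
      have h3 := of_decide_eq_true h2
      omega
    · rintro (⟨h, _⟩ | h)
      · exact absurd h hz
      · refine ⟨by omega, decide_eq_true ?_⟩
        omega

lemma disj_rec (n x : ℕ) : Disjoint (downSet tab n x) ({e tab n + x} : Finset ℕ) := by
  rw [Finset.disjoint_left]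
  intro z h1 h2
  rw [mem_downSet] at h1
  simp only [Finset.mem_singleton] at h2
  omega

variable {utab : List (List ℕ)}

lemma levOk_spec {n : ℕ} (h : levOk tab utab n = true) :
    (tab.getD n []).length = e tab (n + 1) ∧
    utab.getD n [] = (List.range (e tab n)).map (fun x => umask x (tab.getD n [])) ∧
    ∀ d ∈ tab.getD n [], 0 < pcount (e tab n) d := by
  simp only [levOk, Bool.and_eq_true, decide_eq_true_eq, List.all_eq_true] at h
  exact ⟨h.1.1, h.1.2, h.2⟩

lemma upSet_eq {n : ℕ} (ht : TabOk tab utab) (hn : n < tab.length) (x : ℕ) (hx : x < e tab n) :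
    upSet tab n x = bits (e tab (n + 1)) ((utab.getD n []).getD x 0) := by
  obtain ⟨_, h2, _⟩ := levOk_spec (ht.lev n hn)
  ext z
  rw [mem_upSet, mem_bits, h2, c_lt hn]
  have h3 : ((List.range (e tab n)).map (fun x => umask x (tab.getD n []))).getD x 0
      = umask x (tab.getD n []) := by
    rw [List.getD_eq_getElem _ 0 (by simpa using hx)]
    simp
  rw [h3, testBit_umask]

lemma downSet_eq {n : ℕ} (hn : n < tab.length) (y : ℕ) :
    downSet tab n y = bits (e tab n) ((tab.getD n []).getD y 0) := by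
  ext z
  rw [mem_downSet, mem_bits, c_lt hn]

lemma allPairs_spec (Nu Nd : ℕ) : ∀ l : List (ℕ × ℕ), allPairs Nu Nd l = true →
    l.Pairwise (fun p q => (bits Nu (p.1 &&& q.1)).card = (bits Nd (p.2 &&& q.2)).card)
  | [] => fun _ => List.Pairwise.nil
  | p :: ps => by
    intro h
    rw [allPairs, Bool.and_eq_true, List.all_eq_true] at h
    refine List.Pairwise.cons ?_ (allPairs_spec Nu Nd ps h.2)
    intro q hq
    have h1 := h.1 q hq
    split_ifs at h1 with h2
    · have h3 : p.2 &&& q.2 = 0 := by simpa using h1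
      rw [h2, h3]
      simp [bits]
    · rw [← pcount_eq, ← pcount_eq]
      simpa using h1

lemma zip_getElem {n : ℕ} (ht : TabOk tab utab) (hn : n + 1 < tab.length) (x : ℕ)
    (hx : x < e tab (n + 1)) :
    ∃ h : x < ((utab.getD (n + 1) []).zip (tab.getD n [])).length,
      ((utab.getD (n + 1) []).zip (tab.getD n []))[x]
        = ((utab.getD (n + 1) []).getD x 0, (tab.getD n []).getD x 0) := by
  obtain ⟨_, h2, _⟩ := levOk_spec (ht.lev (n + 1) hn)
  obtain ⟨h1, _, _⟩ := levOk_spec (ht.lev n (by omega))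
  have hl1 : (utab.getD (n + 1) []).length = e tab (n + 1) := by
    rw [h2]
    simp
  have hl : x < ((utab.getD (n + 1) []).zip (tab.getD n [])).length := by
    rw [List.length_zip, hl1, h1]
    simpa using hx
  refine ⟨hl, ?_⟩
  rw [List.getElem_zip, List.getD_eq_getElem _ 0 (by omega), List.getD_eq_getElem _ 0 (by omega)]

lemma card_up (ht : TabOk tab utab) (n x : ℕ) (hx : x < e tab (n + 1)) :
    (upSet tab (n + 1) x).card = (downSet tab n x).card + 1 := by
  by_cases hn : n + 1 < tab.length
  · have h1 := ht.rk n hn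
    rw [rkOk, Bool.and_eq_true, List.all_eq_true] at h1
    obtain ⟨hl, h2⟩ := zip_getElem ht hn x hx
    have h3 := h1.1 _ (List.getElem_mem hl)
    rw [h2] at h3
    rw [upSet_eq ht hn x hx, downSet_eq (by omega), ← pcount_eq, ← pcount_eq]
    simpa using h3
  · rw [upSet_rec (by omega) x hx, Finset.card_union_of_disjoint (disj_rec n x)]
    simp

lemma card_common_lt (ht : TabOk tab utab) (n x y : ℕ) (hn : n + 1 < tab.length)
    (hx : x < e tab (n + 1)) (hy : y < e tab (n + 1)) (hxy : x < y) :
    (upSet tab (n + 1) x ∩ upSet tab (n + 1) y).card = (downSet tab n x ∩ downSet tab n y).card := by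
  have h1 := ht.rk n hn
  rw [rkOk, Bool.and_eq_true] at h1
  have h2 := allPairs_spec _ _ _ h1.2
  obtain ⟨hl, h3⟩ := zip_getElem ht hn x hx
  obtain ⟨hl', h3'⟩ := zip_getElem ht hn y hy
  rw [List.pairwise_iff_getElem] at h2
  have h4 := h2 x y hl hl' hxy
  rw [h3, h3'] at h4
  rw [upSet_eq ht hn x hx, upSet_eq ht hn y hy, downSet_eq (by omega), downSet_eq (by omega)]
  have h5 : ∀ N a b, bits N a ∩ bits N b = bits N (a &&& b) := by
    intro N a b
    ext z
    simp only [Finset.mem_inter, mem_bits, Nat.testBit_and, Bool.and_eq_true]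
    tauto
  rw [h5, h5]
  exact h4

lemma card_common (ht : TabOk tab utab) (n x y : ℕ) (hx : x < e tab (n + 1))
    (hy : y < e tab (n + 1)) (hxy : x ≠ y) :
    (upSet tab (n + 1) x ∩ upSet tab (n + 1) y).card
      = (downSet tab n x ∩ downSet tab n y).card := by
  by_cases hn : n + 1 < tab.length
  · rcases lt_or_gt_of_ne hxy with h | h
    · exact card_common_lt ht n x y hn hx hy h
    · rw [Finset.inter_comm, Finset.inter_comm (downSet tab n x)]
      exact card_common_lt ht n y x hn hy hx h
  · congr 1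
    rw [upSet_rec (by omega) x hx, upSet_rec (by omega) y hy]
    ext z
    simp only [mem_downSet, Finset.mem_inter, Finset.mem_union, Finset.mem_singleton]
    constructor
    · rintro ⟨h1 | h1, h2 | h2⟩
      · exact ⟨h1, h2⟩
      · omega
      · omega
      · omega
    · rintro ⟨h1, h2⟩
      exact ⟨Or.inl h1, Or.inl h2⟩

lemma exists_down (ht : TabOk tab utab) (n y : ℕ) (hy : y < e tab (n + 1)) :
    (downSet tab n y).Nonempty := by
  by_cases hn : n < tab.length
  · obtain ⟨h1, _, h3⟩ := levOk_spec (ht.lev n hn)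
    rw [downSet_eq hn, ← Finset.card_pos, ← pcount_eq]
    apply h3
    rw [List.getD_eq_getElem _ 0 (by omega)]
    exact List.getElem_mem _
  · obtain ⟨m, rfl⟩ : ∃ m, n = m + 1 := ⟨n - 1, by have := ht.len; omega⟩
    rw [e_rec (by omega)] at hy
    by_cases h : y < e tab m
    · have h1 : (upSet tab m y).Nonempty := by
        rcases Nat.eq_zero_or_pos m with h0 | h0
        · subst h0
          have h2 : y = 0 := by
            have : y < 1 := h
            omega
          subst h2
          refine ⟨0, ?_⟩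
          rw [mem_upSet, c_lt ht.len, ht.zero]
          refine ⟨?_, by decide⟩
          rw [e, ht.zero]
          norm_num
        · obtain ⟨k, rfl⟩ : ∃ k, m = k + 1 := ⟨m - 1, by omega⟩
          rw [← Finset.card_pos, card_up ht k y h]
          omega
      obtain ⟨x, hx⟩ := h1
      rw [mem_upSet] at hx
      refine ⟨x, ?_⟩
      rw [mem_downSet, c_rec (by omega), if_pos h]
      exact hx
    · refine ⟨y - e tab m, ?_⟩
      rw [mem_downSet, c_rec (by omega), if_neg h]
      exact ⟨by omega, decide_eq_true rfl⟩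

end Tab

/-- Points of the poset. -/
structure Pt (tab : List (List ℕ)) : Type where
  n : ℕ
  i : ℕ
  h : i < e tab n

variable {tab utab : List (List ℕ)}

lemma Pt.eq_of {p q : Pt tab} (h1 : p.n = q.n) (h2 : p.i = q.i) : p = q := by
  cases p
  cases q
  simp only at h1 h2
  subst h1
  subst h2
  rfl

def Step (p q : Pt tab) : Prop := q.n = p.n + 1 ∧ c tab p.n p.i q.i = true

lemma rank_le {p q : Pt tab} (h : Relation.ReflTransGen Step p q) : p.n ≤ q.n := by
  induction h with
  | refl => exact le_rfl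
  | tail _ h2 ih => rw [h2.1]; omega

lemma eq_of_rank_le {p q : Pt tab} (h : Relation.ReflTransGen Step p q) (hn : q.n ≤ p.n) :
    p = q := by
  rcases h.cases_head with h1 | ⟨z, h1, h2⟩
  · exact h1
  · have h3 := rank_le h2
    have h4 := h1.1
    omega

instance instPartialOrderPt : PartialOrder (Pt tab) where
  le := Relation.ReflTransGen Step
  le_refl := fun _ => Relation.ReflTransGen.refl
  le_trans := fun _ _ _ h1 h2 => Relation.ReflTransGen.trans h1 h2
  le_antisymm := fun _ _ h1 h2 => eq_of_rank_le h1 (rank_le h2)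

lemma rank_lt {p q : Pt tab} (h : p < q) : p.n < q.n := by
  rcases (rank_le h.le).lt_or_eq with h1 | h1
  · exact h1
  · exact absurd (eq_of_rank_le h.le h1.ge) h.ne

lemma covBy_iff {p q : Pt tab} : p ⋖ q ↔ Step p q := by
  constructor
  · intro h
    have hle : Relation.ReflTransGen Step p q := h.1.le
    rcases hle.cases_head with h1 | ⟨z, h1, h2⟩
    · exact absurd h1 h.1.ne
    · have hpz : p < z := by
        refine lt_of_le_of_ne (Relation.ReflTransGen.single h1) ?_
        intro h3
        have := h1.1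
        rw [h3] at this
        omega
      have hzq : z = q := by
        by_contra hne
        exact h.2 hpz (lt_of_le_of_ne h2 hne)
      rw [← hzq]
      exact h1
  · intro h
    refine ⟨?_, ?_⟩
    · refine lt_of_le_of_ne (Relation.ReflTransGen.single h) ?_
      intro h3
      have := h.1
      rw [h3] at this
      omega
    · intro z h1 h2
      have h3 := rank_lt h1
      have h4 := rank_lt h2
      have h5 := h.1
      omega

lemma bot_le_aux (ht : TabOk tab utab) : ∀ n : ℕ, ∀ p : Pt tab, p.n = n →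
    Relation.ReflTransGen Step (⟨0, 0, Nat.zero_lt_one⟩ : Pt tab) p
  | 0 => by
    intro p hp
    have h1 := p.h
    rw [hp] at h1
    have h2 : p.i < 1 := h1
    have : (⟨0, 0, Nat.zero_lt_one⟩ : Pt tab) = p := Pt.eq_of hp.symm (by simp only; omega)
    rw [this]
  | (n + 1) => by
    intro p hp
    have h1 := p.h
    rw [hp] at h1
    obtain ⟨x, hx⟩ := exists_down ht n p.i h1
    rw [mem_downSet] at hx
    have h2 := bot_le_aux ht n ⟨n, x, hx.1⟩ rfl
    exact h2.tail ⟨hp, hx.2⟩

lemma rank_finite (n : ℕ) : {p : Pt tab | p.n = n}.Finite := by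
  apply Set.Finite.subset (Set.finite_range (fun i : Fin (e tab n) => (⟨n, i.1, i.2⟩ : Pt tab)))
  intro p hp
  have hp' : p.n = n := hp
  have h1 := p.h
  rw [hp'] at h1
  exact ⟨⟨p.i, h1⟩, Pt.eq_of hp'.symm rfl⟩

lemma rank_ncard (n : ℕ) : {p : Pt tab | p.n = n}.ncard = e tab n := by
  have h1 : {p : Pt tab | p.n = n}
      = (fun i : Fin (e tab n) => (⟨n, i.1, i.2⟩ : Pt tab)) '' Set.univ := by
    ext p
    simp only [Set.mem_ofPred_eq, Set.image_univ, Set.mem_range]
    constructor
    · intro hp
      have h1 := p.h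
      rw [hp] at h1
      exact ⟨⟨p.i, h1⟩, Pt.eq_of hp.symm rfl⟩
    · rintro ⟨i, rfl⟩
      rfl
  rw [h1, Set.ncard_image_of_injective, Set.ncard_univ, Nat.card_fin]
  intro i j hij
  have := congrArg Pt.i hij
  exact Fin.ext this

noncomputable instance locFin : LocallyFiniteOrder (Pt tab) :=
  LocallyFiniteOrder.ofFiniteIcc (by
    intro a b
    have h : (⋃ n ∈ Finset.range (b.n + 1), {p : Pt tab | p.n = n}).Finite := by
      apply Set.Finite.biUnion (Finset.finite_toSet _)
      intro n _
      exact rank_finite n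
    apply h.subset
    intro p hp
    have h1 : p.n ≤ b.n := rank_le hp.2
    simp only [Set.mem_iUnion, Finset.mem_range, Set.mem_ofPred_eq]
    exact ⟨p.n, by omega, rfl⟩)

lemma up_ncard (x : Pt tab) : {z : Pt tab | x ⋖ z}.ncard = (upSet tab x.n x.i).card := by
  have hinj : Set.InjOn Pt.i {z : Pt tab | x ⋖ z} := by
    intro a ha b hb hab
    have h1 := (covBy_iff.mp ha).1
    have h2 := (covBy_iff.mp hb).1
    exact Pt.eq_of (by omega) hab
  rw [← Set.InjOn.ncard_image hinj, ← Set.ncard_coe_finset]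
  congr 1
  ext j
  rw [Finset.mem_coe, mem_upSet]
  constructor
  · rintro ⟨z, hz, rfl⟩
    have h1 := covBy_iff.mp hz
    have h2 := z.h
    rw [h1.1] at h2
    exact ⟨h2, h1.2⟩
  · rintro ⟨h1, h2⟩
    exact ⟨⟨x.n + 1, j, h1⟩, covBy_iff.mpr ⟨rfl, h2⟩, rfl⟩

lemma down_ncard (x : Pt tab) (n : ℕ) (hn : x.n = n + 1) :
    {z : Pt tab | z ⋖ x}.ncard = (downSet tab n x.i).card := by
  have hinj : Set.InjOn Pt.i {z : Pt tab | z ⋖ x} := by
    intro a ha b hb hab
    have h1 := (covBy_iff.mp ha).1
    have h2 := (covBy_iff.mp hb).1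
    exact Pt.eq_of (by omega) hab
  rw [← Set.InjOn.ncard_image hinj, ← Set.ncard_coe_finset]
  congr 1
  ext j
  rw [Finset.mem_coe, mem_downSet]
  constructor
  · rintro ⟨z, hz, rfl⟩
    have h1 := covBy_iff.mp hz
    have h3 : z.n = n := by have := h1.1; omega
    have h2 := z.h
    have h4 := h1.2
    rw [h3] at h2 h4
    exact ⟨h2, h4⟩
  · rintro ⟨h1, h2⟩
    exact ⟨⟨n, j, h1⟩, covBy_iff.mpr ⟨hn, h2⟩, rfl⟩

lemma up2_ncard (x y : Pt tab) (hxy : x.n = y.n) :
    {z : Pt tab | x ⋖ z ∧ y ⋖ z}.ncard = (upSet tab x.n x.i ∩ upSet tab x.n y.i).card := by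
  have hinj : Set.InjOn Pt.i {z : Pt tab | x ⋖ z ∧ y ⋖ z} := by
    intro a ha b hb hab
    have h1 := (covBy_iff.mp ha.1).1
    have h2 := (covBy_iff.mp hb.1).1
    exact Pt.eq_of (by omega) hab
  rw [← Set.InjOn.ncard_image hinj, ← Set.ncard_coe_finset]
  congr 1
  ext j
  rw [Finset.mem_coe, Finset.mem_inter, mem_upSet, mem_upSet]
  constructor
  · rintro ⟨z, hz, rfl⟩
    have h1 := covBy_iff.mp hz.1
    have h1' := covBy_iff.mp hz.2
    have h2 := z.h
    rw [h1.1] at h2
    have h3 := h1'.2
    rw [← hxy] at h3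
    exact ⟨⟨h2, h1.2⟩, ⟨h2, h3⟩⟩
  · rintro ⟨⟨h1, h2⟩, ⟨_, h3⟩⟩
    refine ⟨⟨x.n + 1, j, h1⟩, ⟨covBy_iff.mpr ⟨rfl, h2⟩, covBy_iff.mpr ⟨?_, ?_⟩⟩, rfl⟩
    · simp only
      rw [hxy]
    · simp only
      rw [← hxy]
      exact h3

lemma down2_ncard (x y : Pt tab) (n : ℕ) (hx : x.n = n + 1) (hy : y.n = n + 1) :
    {z : Pt tab | z ⋖ x ∧ z ⋖ y}.ncard = (downSet tab n x.i ∩ downSet tab n y.i).card := by
  have hinj : Set.InjOn Pt.i {z : Pt tab | z ⋖ x ∧ z ⋖ y} := by
    intro a ha b hb hab
    have h1 := (covBy_iff.mp ha.1).1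
    have h2 := (covBy_iff.mp hb.1).1
    exact Pt.eq_of (by omega) hab
  rw [← Set.InjOn.ncard_image hinj, ← Set.ncard_coe_finset]
  congr 1
  ext j
  rw [Finset.mem_coe, Finset.mem_inter, mem_downSet, mem_downSet]
  constructor
  · rintro ⟨z, hz, rfl⟩
    have h1 := covBy_iff.mp hz.1
    have h1' := covBy_iff.mp hz.2
    have h3 : z.n = n := by have := h1.1; omega
    have h2 := z.h
    have h4 := h1.2
    have h5 := h1'.2
    rw [h3] at h2 h4 h5
    exact ⟨⟨h2, h4⟩, ⟨h2, h5⟩⟩
  · rintro ⟨⟨h1, h2⟩, ⟨_, h3⟩⟩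
    exact ⟨⟨n, j, h1⟩, ⟨covBy_iff.mpr ⟨hx, h2⟩, covBy_iff.mpr ⟨hy, h3⟩⟩, rfl⟩

lemma cond_up (ht : TabOk tab utab) (x : Pt tab) :
    {z : Pt tab | x ⋖ z}.ncard = {z : Pt tab | z ⋖ x}.ncard + 1 := by
  rw [up_ncard]
  rcases Nat.eq_zero_or_pos x.n with h | h
  · have hempty : {z : Pt tab | z ⋖ x} = ∅ := by
      ext z
      simp only [Set.mem_ofPred_eq, Set.mem_empty_iff_false, iff_false]
      intro hz
      have := (covBy_iff.mp hz).1
      omega
    have h1 := x.h
    rw [h] at h1
    have h2 : x.i < 1 := h1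
    have h3 : x.i = 0 := by omega
    rw [hempty, Set.ncard_empty, h, h3]
    have h4 : upSet tab 0 0 = {0} := by
      ext z
      rw [mem_upSet, c_lt ht.len, ht.zero, e, ht.zero, Finset.mem_singleton]
      constructor
      · intro h5
        have : z < 1 := h5.1
        omega
      · rintro rfl
        exact ⟨by norm_num, by decide⟩
    rw [h4]
    simp
  · obtain ⟨n, hn⟩ : ∃ n, x.n = n + 1 := ⟨x.n - 1, by omega⟩
    rw [down_ncard x n hn, hn]
    apply card_up ht
    have := x.h
    rwa [hn] at this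

lemma cond_common (ht : TabOk tab utab) (x y : Pt tab) (hxy : x ≠ y) :
    {z : Pt tab | z ⋖ x ∧ z ⋖ y}.ncard = {z : Pt tab | x ⋖ z ∧ y ⋖ z}.ncard := by
  by_cases hn : x.n = y.n
  · rcases Nat.eq_zero_or_pos x.n with h | h
    · exfalso
      apply hxy
      have h1 := x.h
      have h2 := y.h
      rw [h] at h1
      rw [← hn, h] at h2
      have h3 : x.i < 1 := h1
      have h4 : y.i < 1 := h2
      exact Pt.eq_of hn (by omega)
    · obtain ⟨n, hn1⟩ : ∃ n, x.n = n + 1 := ⟨x.n - 1, by omega⟩
      have hn2 : y.n = n + 1 := by omega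
      rw [down2_ncard x y n hn1 hn2, up2_ncard x y hn, hn1]
      symm
      apply card_common ht
      · have := x.h
        rwa [hn1] at this
      · have := y.h
        rwa [hn2] at this
      · intro h3
        exact hxy (Pt.eq_of hn h3)
  · have h1 : {z : Pt tab | z ⋖ x ∧ z ⋖ y} = ∅ := by
      ext z
      simp only [Set.mem_ofPred_eq, Set.mem_empty_iff_false, iff_false]
      rintro ⟨ha, hb⟩
      have h1 := (covBy_iff.mp ha).1
      have h2 := (covBy_iff.mp hb).1
      omega
    have h2 : {z : Pt tab | x ⋖ z ∧ y ⋖ z} = ∅ := by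
      ext z
      simp only [Set.mem_ofPred_eq, Set.mem_empty_iff_false, iff_false]
      rintro ⟨ha, hb⟩
      have h1 := (covBy_iff.mp ha).1
      have h2 := (covBy_iff.mp hb).1
      omega
    rw [h1, h2]

/-- The rank function of the constructed poset is the rank function of a 1-differential poset. -/
theorem e_mem (ht : TabOk tab utab) : e tab ∈ RankFunctions 1 := by
  let _ : OrderBot (Pt tab) :=
    { bot := ⟨0, 0, Nat.zero_lt_one⟩
      bot_le := fun p => bot_le_aux ht p.n p rfl }
  refine ⟨Pt tab, instPartialOrderPt, inferInstance, locFin, fun p => p.n, ?_, rank_ncard⟩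
  exact
    { rank_bot := rfl
      rank_covBy := fun x y h => (covBy_iff.mp h).1
      rank_finite := rank_finite
      up_finite := fun x => (rank_finite (x.n + 1)).subset (fun z hz => (covBy_iff.mp hz).1)
      up_ncard := cond_up ht
      common := cond_common ht }

end Pool.Agent.J4H96.DP
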