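import Pool.Agent.J4H96.DPSound
import Pool.Agent.J4H96.DPDef

set_option autoImplicit false

namespace Pool.Agent.J4H96.DP

open Pool.Agent.J4H96.DPDef

variable {P : Type} [PartialOrder P] [OrderBot P] [LocallyFiniteOrder P]

/-- Rank `n` of the poset has an enumeration with the given data. -/
def Real (ρ : P → ℕ) (n : ℕ) (rem cap : List ℕ) (N : ℕ) : Prop :=
  ∃ f : ℕ → P, (∀ i < N, ρ (f i) = n) ∧ (∀ i < N, ∀ j < N, f i = f j → i = j) ∧
    (∀ x, ρ x = n → ∃ i < N, f i = x) ∧
    (∀ i < N, {z : P | z ⋖ f i}.ncard + 1 = cap.getD i 0) ∧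
    (∀ i < N, ∀ j < N, i ≠ j → {z : P | z ⋖ f i ∧ z ⋖ f j}.ncard
      = if (rem.getD i 0).testBit j = true then 1 else 0)

lemma exists_covBy_of_ne_bot (x : P) (hx : x ≠ ⊥) : ∃ z : P, z ⋖ x := by
  classical
  have hne : (Finset.Ico ⊥ x).Nonempty :=
    ⟨⊥, Finset.mem_Ico.mpr ⟨le_refl _, bot_lt_iff_ne_bot.mpr hx⟩⟩
  obtain ⟨z, hz⟩ := (Finset.Ico ⊥ x).exists_maximal hne
  refine ⟨z, (Finset.mem_Ico.mp hz.1).2, ?_⟩
  intro c h1 h2
  have h3 : c ∈ Finset.Ico ⊥ x := Finset.mem_Ico.mpr ⟨bot_le, h2⟩
  exact absurd (hz.2 h3 h1.le) (not_le_of_gt h1)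

lemma exists_list_of_map_eq {α β : Type} (D : α → β) : ∀ (s : List β) (m : Multiset α),
    (s : Multiset β) = m.map D → ∃ l : List α, (l : Multiset α) = m ∧ l.map D = s
  | [], m => by
    intro h
    refine ⟨[], ?_, rfl⟩
    rw [Multiset.coe_nil] at h ⊢
    exact (Multiset.map_eq_zero.mp h.symm).symm
  | a :: s, m => by
    classical
    intro h
    have ha : a ∈ m.map D := by
      rw [← h]
      exact List.mem_cons_self
    obtain ⟨v, hv, hva⟩ := Multiset.mem_map.mp ha
    obtain ⟨m', rfl⟩ := Multiset.exists_cons_of_mem hv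
    rw [Multiset.map_cons, hva, ← Multiset.cons_coe, Multiset.cons_inj_right] at h
    obtain ⟨l, hl, hl2⟩ := exists_list_of_map_eq D s m' h
    refine ⟨v :: l, ?_, ?_⟩
    · rw [← Multiset.cons_coe, hl]
    · rw [List.map_cons, hl2, hva]

lemma nextOk_spec {N : ℕ} {s : List ℕ} {L : Lv} (h : nextOk N s L = true) :
    (∀ k < s.length, L.cap.getD k 0 = (bits N (s.getD k 0)).card + 1) ∧
    (∀ k < s.length, ∀ l < s.length, k ≠ l →
      (bits N ((s.getD k 0) &&& (s.getD l 0))).card
        = if (L.rem.getD k 0).testBit l = true then 1 else 0) := by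
  simp only [nextOk, Bool.and_eq_true, decide_eq_true_eq, List.all_eq_true, List.mem_range] at h
  refine ⟨?_, ?_⟩
  · intro k hk
    rw [← pcount_eq]
    exact (h.2 k hk).1
  · intro k hk l hl hkl
    have h1 := (h.2 k hk).2 l hl
    rw [Bool.or_eq_true] at h1
    rcases h1 with h1 | h1
    · exact absurd (Nat.eq_of_beq_eq_true h1) hkl
    · split_ifs at h1 with h2
      · rw [h2]
        have h3 : (L.rem.getD k 0).testBit l = false := by simpa using h1
        rw [h3, ← pcount_eq]
        simp only [Bool.false_eq_true, if_false]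
        rw [pcount_eq, bits, Finset.card_eq_zero, Finset.filter_eq_empty_iff]
        intro i _
        simp
      · rw [Bool.and_eq_true, decide_eq_true_eq] at h1
        rw [if_pos h1.1, ← pcount_eq]
        exact h1.2

/-- The initial search state satisfies the constraints. -/
lemma sol_init {N t : ℕ} {rem cap g : List ℕ} {M : Multiset ℕ}
    (pos : ∀ B ∈ M, B ≠ 0 ∧ B < 2 ^ N)
    (deg : ∀ i < N, M.countP (fun B => B.testBit i = true) = cap.getD i 0)
    (pair : ∀ i < N, ∀ j < N, i ≠ j →
      M.countP (fun B => B.testBit i = true ∧ B.testBit j = true)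
        = if (rem.getD i 0).testBit j = true then 1 else 0)
    (card : M.card = t)
    (hg : ∀ i < N, (rem.getD i 0).testBit i = false ∧ g.getD i 0 = pcount N (rem.getD i 0)) :
    Sol N rem cap g t M := by
  refine ⟨pos, deg, pair, ?_, card⟩
  intro i hi
  rw [(hg i hi).2, pcount_eq]
  have key : ∀ M' : Multiset ℕ,
      ((M'.filter (fun B => B.testBit i = true)).map (fun B => (bits N B).card - 1)).sum
        = ∑ j ∈ (Finset.range N).erase i,
            M'.countP (fun B => B.testBit i = true ∧ B.testBit j = true) := by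
    intro M'
    induction M' using Multiset.induction_on with
    | empty => simp
    | cons B M' ih =>
      simp only [Multiset.countP_cons]
      rw [Finset.sum_add_distrib, ← ih]
      by_cases hb : B.testBit i = true
      · rw [Multiset.filter_cons_of_pos (p := fun B : ℕ => B.testBit i = true) _ hb,
          Multiset.map_cons, Multiset.sum_cons, add_comm]
        congr 1
        have h1 : (bits N B).card - 1 = ((bits N B).erase i).card := by
          rw [Finset.card_erase_of_mem (mem_bits.mpr ⟨hi, hb⟩)]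
        rw [h1, ← Finset.card_filter]
        congr 1
        ext j
        simp only [Finset.mem_erase, mem_bits, Finset.mem_filter, Finset.mem_range]
        tauto
      · rw [Multiset.filter_cons_of_neg (p := fun B : ℕ => B.testBit i = true) _ hb]
        have h1 : (∑ j ∈ (Finset.range N).erase i,
            if (B.testBit i = true ∧ B.testBit j = true) then 1 else 0) = 0 := by
          apply Finset.sum_eq_zero
          intro j _
          rw [if_neg (fun h => hb h.1)]
        rw [h1, add_zero]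
  rw [key M]
  have h1 : ∀ j ∈ (Finset.range N).erase i,
      M.countP (fun B => B.testBit i = true ∧ B.testBit j = true)
        = if (rem.getD i 0).testBit j = true then 1 else 0 := by
    intro j hj
    rw [Finset.mem_erase, Finset.mem_range] at hj
    exact pair i hi j hj.2 (Ne.symm hj.1)
  rw [Finset.sum_congr rfl h1, ← Finset.card_filter]
  congr 1
  ext j
  simp only [Finset.mem_erase, mem_bits, Finset.mem_filter, Finset.mem_range]
  constructor
  · rintro ⟨⟨_, h2⟩, h3⟩
    exact ⟨h2, h3⟩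
  · rintro ⟨h2, h3⟩
    refine ⟨⟨?_, h2⟩, h3⟩
    rintro rfl
    rw [(hg j hi).1] at h3
    exact absurd h3 (by simp)

/-- Everything needed for one rank. -/
def gOk (N : ℕ) (L : Lv) : Bool :=
  (List.range N).all (fun i => (L.rem.getD i 0).testBit i == false
    && decide (L.g.getD i 0 = pcount N (L.rem.getD i 0)))

theorem step {ρ : P → ℕ} (hd : IsDifferential 1 P ρ) {n N T : ℕ} {L : Lv}
    (hR : Real ρ n L.rem L.cap N) (hT : {x : P | ρ x = n + 1}.ncard = T)
    (sols : List (List ℕ)) (is : List Instr)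
    (hg : gOk N L = true)
    (hrun : run N sols is [⟨L.rem, L.cap, L.g, T, []⟩] = true) :
    ∃ k < sols.length, ∀ L' : Lv, nextOk N (sols.getD k []) L' = true →
      (sols.getD k []).length = T →
      Real ρ (n + 1) L'.rem L'.cap T := by
  classical
  obtain ⟨f, hf1, hf2, hf3, hf4, hf5⟩ := hR
  set S := (hd.rank_finite (n + 1)).toFinset with hS
  have memS : ∀ v, v ∈ S ↔ ρ v = n + 1 := by
    intro v
    rw [hS, Set.Finite.mem_toFinset]
    rfl
  set D : P → ℕ := fun v => Nat.ofBits (fun i : Fin N => decide (f i.1 ⋖ v)) with hD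
  have Dbit : ∀ v i, i < N → ((D v).testBit i = true ↔ f i ⋖ v) := by
    intro v i hi
    rw [hD]
    simp only
    rw [Nat.testBit_ofBits_lt _ _ hi, decide_eq_true_eq]
  have Dlt : ∀ v, D v < 2 ^ N := fun v => Nat.ofBits_lt_two_pow _
  set M : Multiset ℕ := S.val.map D with hM
  have hcountS : ∀ (p : ℕ → Prop) [DecidablePred p], M.countP p = (S.filter (fun v => p (D v))).card := by
    intro p _
    rw [hM, Multiset.countP_map]
    rfl
  have hup : ∀ i < N, (S.filter (fun v => (D v).testBit i = true)).card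
      = {z : P | f i ⋖ z}.ncard := by
    intro i hi
    rw [← Set.ncard_coe_finset]
    congr 1
    ext v
    simp only [Finset.coe_filter, Set.mem_ofPred_eq]
    rw [memS, Dbit v i hi]
    constructor
    · exact fun h => h.2
    · intro h
      refine ⟨?_, h⟩
      rw [hd.rank_covBy _ _ h, hf1 i hi]
  have hup2 : ∀ i < N, ∀ j < N, (S.filter (fun v => (D v).testBit i = true ∧
      (D v).testBit j = true)).card = {z : P | f i ⋖ z ∧ f j ⋖ z}.ncard := by
    intro i hi j hj
    rw [← Set.ncard_coe_finset]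
    congr 1
    ext v
    simp only [Finset.coe_filter, Set.mem_ofPred_eq]
    rw [memS, Dbit v i hi, Dbit v j hj]
    constructor
    · exact fun h => h.2
    · intro h
      refine ⟨?_, h⟩
      rw [hd.rank_covBy _ _ h.1, hf1 i hi]
  have hsol : Sol N L.rem L.cap L.g T M := by
    refine sol_init ?_ ?_ ?_ ?_ ?_
    · intro B hB
      rw [hM, Multiset.mem_map] at hB
      obtain ⟨v, hv, rfl⟩ := hB
      refine ⟨?_, Dlt v⟩
      have hv2 : ρ v = n + 1 := (memS v).mp hv
      have hvb : v ≠ ⊥ := by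
        rintro rfl
        rw [hd.rank_bot] at hv2
        omega
      obtain ⟨z, hz⟩ := exists_covBy_of_ne_bot v hvb
      have hzn : ρ z = n := by
        have := hd.rank_covBy _ _ hz
        omega
      obtain ⟨i, hi, rfl⟩ := hf3 z hzn
      intro h0
      have h1 := (Dbit v i hi).mpr hz
      rw [h0] at h1
      simp at h1
    · intro i hi
      rw [hcountS, hup i hi, hd.up_ncard, hf4 i hi]
    · intro i hi j hj hij
      rw [hcountS, hup2 i hi j hj, ← hd.common _ _ (fun h => hij (hf2 i hi j hj h)),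
        hf5 i hi j hj hij]
    · rw [hM, Multiset.card_map, ← hT, Set.ncard_eq_toFinset_card _ (hd.rank_finite (n + 1))]
      rfl
    · intro i hi
      simp only [gOk, List.all_eq_true, List.mem_range, Bool.and_eq_true, decide_eq_true_eq] at hg
      refine ⟨by simpa using (hg i hi).1, (hg i hi).2⟩
  obtain ⟨k, hk, hk2⟩ := run_sound N sols is _ hrun _ List.mem_cons_self M hsol
  refine ⟨k, hk, ?_⟩
  intro L' hL' hlen
  rw [Multiset.coe_nil, zero_add] at hk2
  obtain ⟨l, hl, hl2⟩ := exists_list_of_map_eq D (sols.getD k []) S.val hk2.symm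
  have hllen : l.length = T := by rw [← hlen, ← hl2, List.length_map]
  have hnd : l.Nodup := by
    rw [← Multiset.coe_nodup, hl]
    exact S.nodup
  have hmem : ∀ v, v ∈ l ↔ ρ v = n + 1 := by
    intro v
    rw [← memS, ← Finset.mem_val, ← hl]
    rfl
  obtain ⟨hn1, hn2⟩ := nextOk_spec hL'
  rw [hlen] at hn1 hn2
  have hget : ∀ i (hi : i < T), l.getD i ⊥ = l[i]'(by omega) := by
    intro i hi
    exact List.getD_eq_getElem l ⊥ (by omega)
  have hrank : ∀ i < T, ρ (l.getD i ⊥) = n + 1 := by
    intro i hi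
    rw [hget i hi, ← hmem]
    exact List.getElem_mem _
  have hDl : ∀ i < T, D (l.getD i ⊥) = (sols.getD k []).getD i 0 := by
    intro i hi
    rw [hget i hi, List.getD_eq_getElem _ 0 (by omega)]
    simp only [← hl2, List.getElem_map]
  have hdown : ∀ v, ρ v = n + 1 → ∀ z, z ⋖ v → ∃ i < N, f i = z := by
    intro v hv z hz
    apply hf3
    have := hd.rank_covBy _ _ hz
    omega
  refine ⟨fun i => l.getD i ⊥, hrank, ?_, ?_, ?_, ?_⟩
  · intro i hi j hj hij
    simp only at hij
    rw [hget i hi, hget j hj] at hij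
    exact (hnd.getElem_inj_iff).mp hij
  · intro x hx
    obtain ⟨i, hi, rfl⟩ := List.getElem_of_mem ((hmem x).mpr hx)
    exact ⟨i, by omega, hget i (by omega)⟩
  · intro i hi
    rw [hn1 i hi]
    congr 1
    have h1 : {z : P | z ⋖ l.getD i ⊥} = f '' (bits N ((sols.getD k []).getD i 0) : Set ℕ) := by
      ext z
      simp only [Set.mem_ofPred_eq, Set.mem_image, Finset.mem_coe, mem_bits]
      rw [← hDl i hi]
      constructor
      · intro hz
        obtain ⟨j, hj, rfl⟩ := hdown _ (hrank i hi) z hz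
        exact ⟨j, ⟨hj, (Dbit _ j hj).mpr hz⟩, rfl⟩
      · rintro ⟨j, ⟨hj, hj2⟩, rfl⟩
        exact (Dbit _ j hj).mp hj2
    simp only
    rw [h1, Set.InjOn.ncard_image, Set.ncard_coe_finset]
    intro a ha b hb hab
    exact hf2 a (mem_bits.mp ha).1 b (mem_bits.mp hb).1 hab
  · intro i hi j hj hij
    rw [← hn2 i hi j hj hij]
    have h1 : {z : P | z ⋖ l.getD i ⊥ ∧ z ⋖ l.getD j ⊥}
        = f '' (bits N (((sols.getD k []).getD i 0) &&& ((sols.getD k []).getD j 0)) : Set ℕ) := by
      ext z
      simp only [Set.mem_ofPred_eq, Set.mem_image, Finset.mem_coe, mem_bits]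
      rw [← hDl i hi, ← hDl j hj]
      simp only [Nat.testBit_and, Bool.and_eq_true]
      constructor
      · rintro ⟨hz, hz2⟩
        obtain ⟨a, ha, rfl⟩ := hdown _ (hrank i hi) z hz
        exact ⟨a, ⟨ha, (Dbit _ a ha).mpr hz, (Dbit _ a ha).mpr hz2⟩, rfl⟩
      · rintro ⟨a, ⟨ha, ha2, ha3⟩, rfl⟩
        exact ⟨(Dbit _ a ha).mp ha2, (Dbit _ a ha).mp ha3⟩
    simp only
    rw [h1, Set.InjOn.ncard_image, Set.ncard_coe_finset]
    intro a ha b hb hab
    exact hf2 a (mem_bits.mp ha).1 b (mem_bits.mp hb).1 hab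

/-- All checks for one state of one rank. -/
def stateOk (N T : ℕ) (L : Lv) (sols : List (List ℕ)) (is : List Instr) (nexts : List Lv)
    (nx : List ℕ) : Bool :=
  gOk N L && run N sols is [⟨L.rem, L.cap, L.g, T, []⟩]
    && (List.range sols.length).all (fun k => decide ((sols.getD k []).length = T)
      && decide (nx.getD k 0 < nexts.length)
      && nextOk N (sols.getD k []) (nexts.getD (nx.getD k 0) ⟨[], [], []⟩))

theorem level_step {ρ : P → ℕ} (hd : IsDifferential 1 P ρ) {n N T : ℕ} (ls nexts : List Lv)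
    (hls : ∀ L ∈ ls, ∃ sols is nx, stateOk N T L sols is nexts nx = true)
    (hT : {x : P | ρ x = n + 1}.ncard = T)
    (h : ∃ L ∈ ls, Real ρ n L.rem L.cap N) : ∃ L ∈ nexts, Real ρ (n + 1) L.rem L.cap T := by
  obtain ⟨L, hL, hR⟩ := h
  obtain ⟨sols, is, nx, hok⟩ := hls L hL
  simp only [stateOk, Bool.and_eq_true, List.all_eq_true, List.mem_range, decide_eq_true_eq]
    at hok
  obtain ⟨⟨hg, hrun⟩, hnx⟩ := hok
  obtain ⟨k, hk, hk2⟩ := step hd hR hT sols is hg hrun
  obtain ⟨⟨h1, h2⟩, h3⟩ := hnx k hk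
  refine ⟨nexts.getD (nx.getD k 0) ⟨[], [], []⟩, ?_, hk2 _ h3 h1⟩
  rw [List.getD_eq_getElem _ _ h2]
  exact List.getElem_mem _

lemma level_zero {ρ : P → ℕ} (hd : IsDifferential 1 P ρ) : Real ρ 0 [0] [1] 1 := by
  refine ⟨fun _ => ⊥, fun _ _ => hd.rank_bot, ?_, ?_, ?_, ?_⟩
  · intro i hi j hj _
    omega
  · intro x hx
    refine ⟨0, by norm_num, ?_⟩
    by_contra hne
    obtain ⟨z, hz⟩ := exists_covBy_of_ne_bot x (fun h => hne h.symm)
    have := hd.rank_covBy _ _ hz
    omega
  · intro i hi
    have h1 : {z : P | z ⋖ (⊥ : P)} = ∅ := by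
      ext z
      simp only [Set.mem_ofPred_eq, Set.mem_empty_iff_false, iff_false]
      intro hz
      exact absurd hz.1 not_lt_bot
    simp only
    rw [h1, Set.ncard_empty]
    have : i = 0 := by omega
    subst this
    rfl
  · intro i hi j hj hij
    omega

end Pool.Agent.J4H96.DP
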