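import Pool.Agent.J4H96.DPData
import Pool.Agent.J4H96.DPStep

/-! Verification of the certificates, rank 10. -/

set_option autoImplicit false
set_option maxRecDepth 100000

namespace Pool.Agent.J4H96.DP

lemma ok10_0 : stateOk 46 65 lv10_0 sols10_0 ins10_0 lvl11 nx10_0 = true := by
  decide +kernel

lemma ok10_1 : stateOk 46 65 lv10_1 sols10_1 ins10_1 lvl11 nx10_1 = true := by
  decide +kernel

lemma ok10_2 : stateOk 46 65 lv10_2 sols10_2 ins10_2 lvl11 nx10_2 = true := by
  decide +kernel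

lemma ok10_3 : stateOk 46 65 lv10_3 sols10_3 ins10_3 lvl11 nx10_3 = true := by
  decide +kernel

lemma okLvl10 : ∀ L ∈ lvl10, ∃ sols is nx, stateOk 46 65 L sols is lvl11 nx = true := by
  intro L hL
  simp only [lvl10, List.mem_cons, List.not_mem_nil, or_false] at hL
  rcases hL with rfl | rfl | rfl | rfl
  · exact ⟨_, _, _, ok10_0⟩
  · exact ⟨_, _, _, ok10_1⟩
  · exact ⟨_, _, _, ok10_2⟩
  · exact ⟨_, _, _, ok10_3⟩

end Pool.Agent.J4H96.DP
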