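import Pool.Agent.J4H96.DPData
import Pool.Agent.J4H96.DPStep

/-! Verification of the certificates, ranks 0 to 8. -/

set_option autoImplicit false
set_option maxRecDepth 100000

namespace Pool.Agent.J4H96.DP

lemma ok0_0 : stateOk 1 1 lv0_0 sols0_0 ins0_0 lvl1 nx0_0 = true := by
  decide +kernel

lemma okLvl0 : ∀ L ∈ lvl0, ∃ sols is nx, stateOk 1 1 L sols is lvl1 nx = true := by
  intro L hL
  simp only [lvl0, List.mem_cons, List.not_mem_nil, or_false] at hL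
  subst hL
  exact ⟨_, _, _, ok0_0⟩

lemma ok1_0 : stateOk 1 2 lv1_0 sols1_0 ins1_0 lvl2 nx1_0 = true := by
  decide +kernel

lemma okLvl1 : ∀ L ∈ lvl1, ∃ sols is nx, stateOk 1 2 L sols is lvl2 nx = true := by
  intro L hL
  simp only [lvl1, List.mem_cons, List.not_mem_nil, or_false] at hL
  subst hL
  exact ⟨_, _, _, ok1_0⟩

lemma ok2_0 : stateOk 2 3 lv2_0 sols2_0 ins2_0 lvl3 nx2_0 = true := by
  decide +kernel

lemma okLvl2 : ∀ L ∈ lvl2, ∃ sols is nx, stateOk 2 3 L sols is lvl3 nx = true := by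
  intro L hL
  simp only [lvl2, List.mem_cons, List.not_mem_nil, or_false] at hL
  subst hL
  exact ⟨_, _, _, ok2_0⟩

lemma ok3_0 : stateOk 3 5 lv3_0 sols3_0 ins3_0 lvl4 nx3_0 = true := by
  decide +kernel

lemma okLvl3 : ∀ L ∈ lvl3, ∃ sols is nx, stateOk 3 5 L sols is lvl4 nx = true := by
  intro L hL
  simp only [lvl3, List.mem_cons, List.not_mem_nil, or_false] at hL
  subst hL
  exact ⟨_, _, _, ok3_0⟩

lemma ok4_0 : stateOk 5 7 lv4_0 sols4_0 ins4_0 lvl5 nx4_0 = true := by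
  decide +kernel

lemma okLvl4 : ∀ L ∈ lvl4, ∃ sols is nx, stateOk 5 7 L sols is lvl5 nx = true := by
  intro L hL
  simp only [lvl4, List.mem_cons, List.not_mem_nil, or_false] at hL
  subst hL
  exact ⟨_, _, _, ok4_0⟩

lemma ok5_0 : stateOk 7 11 lv5_0 sols5_0 ins5_0 lvl6 nx5_0 = true := by
  decide +kernel

lemma okLvl5 : ∀ L ∈ lvl5, ∃ sols is nx, stateOk 7 11 L sols is lvl6 nx = true := by
  intro L hL
  simp only [lvl5, List.mem_cons, List.not_mem_nil, or_false] at hL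
  subst hL
  exact ⟨_, _, _, ok5_0⟩

lemma ok6_0 : stateOk 11 15 lv6_0 sols6_0 ins6_0 lvl7 nx6_0 = true := by
  decide +kernel

lemma ok6_1 : stateOk 11 15 lv6_1 sols6_1 ins6_1 lvl7 nx6_1 = true := by
  decide +kernel

lemma okLvl6 : ∀ L ∈ lvl6, ∃ sols is nx, stateOk 11 15 L sols is lvl7 nx = true := by
  intro L hL
  simp only [lvl6, List.mem_cons, List.not_mem_nil, or_false] at hL
  rcases hL with rfl | rfl
  · exact ⟨_, _, _, ok6_0⟩
  · exact ⟨_, _, _, ok6_1⟩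

lemma ok7_0 : stateOk 15 23 lv7_0 sols7_0 ins7_0 lvl8 nx7_0 = true := by
  decide +kernel

lemma okLvl7 : ∀ L ∈ lvl7, ∃ sols is nx, stateOk 15 23 L sols is lvl8 nx = true := by
  intro L hL
  simp only [lvl7, List.mem_cons, List.not_mem_nil, or_false] at hL
  subst hL
  exact ⟨_, _, _, ok7_0⟩

lemma ok8_0 : stateOk 23 32 lv8_0 sols8_0 ins8_0 lvl9 nx8_0 = true := by
  decide +kernel

lemma ok8_1 : stateOk 23 32 lv8_1 sols8_1 ins8_1 lvl9 nx8_1 = true := by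
  decide +kernel

lemma ok8_2 : stateOk 23 32 lv8_2 sols8_2 ins8_2 lvl9 nx8_2 = true := by
  decide +kernel

lemma ok8_3 : stateOk 23 32 lv8_3 sols8_3 ins8_3 lvl9 nx8_3 = true := by
  decide +kernel

lemma ok8_4 : stateOk 23 32 lv8_4 sols8_4 ins8_4 lvl9 nx8_4 = true := by
  decide +kernel

lemma okLvl8 : ∀ L ∈ lvl8, ∃ sols is nx, stateOk 23 32 L sols is lvl9 nx = true := by
  intro L hL
  simp only [lvl8, List.mem_cons, List.not_mem_nil, or_false] at hL
  rcases hL with rfl | rfl | rfl | rfl | rfl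
  · exact ⟨_, _, _, ok8_0⟩
  · exact ⟨_, _, _, ok8_1⟩
  · exact ⟨_, _, _, ok8_2⟩
  · exact ⟨_, _, _, ok8_3⟩
  · exact ⟨_, _, _, ok8_4⟩

end Pool.Agent.J4H96.DP
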