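import Pool.Agent.J4H96.DPData
import Pool.Agent.J4H96.DPStep

/-! Verification of the certificates, rank 9. -/

set_option autoImplicit false
set_option maxRecDepth 100000

namespace Pool.Agent.J4H96.DP

lemma ok9_0 : stateOk 32 46 lv9_0 sols9_0 ins9_0 lvl10 nx9_0 = true := by
  decide +kernel

lemma ok9_1 : stateOk 32 46 lv9_1 sols9_1 ins9_1 lvl10 nx9_1 = true := by
  decide +kernel

lemma ok9_2 : stateOk 32 46 lv9_2 sols9_2 ins9_2 lvl10 nx9_2 = true := by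
  decide +kernel

lemma ok9_3 : stateOk 32 46 lv9_3 sols9_3 ins9_3 lvl10 nx9_3 = true := by
  decide +kernel

lemma ok9_4 : stateOk 32 46 lv9_4 sols9_4 ins9_4 lvl10 nx9_4 = true := by
  decide +kernel

lemma ok9_5 : stateOk 32 46 lv9_5 sols9_5 ins9_5 lvl10 nx9_5 = true := by
  decide +kernel

lemma ok9_6 : stateOk 32 46 lv9_6 sols9_6 ins9_6 lvl10 nx9_6 = true := by
  decide +kernel

lemma ok9_7 : stateOk 32 46 lv9_7 sols9_7 ins9_7 lvl10 nx9_7 = true := by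
  decide +kernel

lemma ok9_8 : stateOk 32 46 lv9_8 sols9_8 ins9_8 lvl10 nx9_8 = true := by
  decide +kernel

lemma ok9_9 : stateOk 32 46 lv9_9 sols9_9 ins9_9 lvl10 nx9_9 = true := by
  decide +kernel

lemma ok9_10 : stateOk 32 46 lv9_10 sols9_10 ins9_10 lvl10 nx9_10 = true := by
  decide +kernel

lemma ok9_11 : stateOk 32 46 lv9_11 sols9_11 ins9_11 lvl10 nx9_11 = true := by
  decide +kernel

lemma ok9_12 : stateOk 32 46 lv9_12 sols9_12 ins9_12 lvl10 nx9_12 = true := by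
  decide +kernel

lemma ok9_13 : stateOk 32 46 lv9_13 sols9_13 ins9_13 lvl10 nx9_13 = true := by
  decide +kernel

lemma ok9_14 : stateOk 32 46 lv9_14 sols9_14 ins9_14 lvl10 nx9_14 = true := by
  decide +kernel

lemma ok9_15 : stateOk 32 46 lv9_15 sols9_15 ins9_15 lvl10 nx9_15 = true := by
  decide +kernel

lemma ok9_16 : stateOk 32 46 lv9_16 sols9_16 ins9_16 lvl10 nx9_16 = true := by
  decide +kernel

lemma ok9_17 : stateOk 32 46 lv9_17 sols9_17 ins9_17 lvl10 nx9_17 = true := by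
  decide +kernel

lemma okLvl9 : ∀ L ∈ lvl9, ∃ sols is nx, stateOk 32 46 L sols is lvl10 nx = true := by
  intro L hL
  simp only [lvl9, List.mem_cons, List.not_mem_nil, or_false] at hL
  rcases hL with rfl | rfl | rfl | rfl | rfl | rfl | rfl | rfl | rfl | rfl | rfl | rfl | rfl | rfl |
    rfl | rfl | rfl | rfl
  · exact ⟨_, _, _, ok9_0⟩
  · exact ⟨_, _, _, ok9_1⟩
  · exact ⟨_, _, _, ok9_2⟩
  · exact ⟨_, _, _, ok9_3⟩
  · exact ⟨_, _, _, ok9_4⟩
  · exact ⟨_, _, _, ok9_5⟩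
  · exact ⟨_, _, _, ok9_6⟩
  · exact ⟨_, _, _, ok9_7⟩
  · exact ⟨_, _, _, ok9_8⟩
  · exact ⟨_, _, _, ok9_9⟩
  · exact ⟨_, _, _, ok9_10⟩
  · exact ⟨_, _, _, ok9_11⟩
  · exact ⟨_, _, _, ok9_12⟩
  · exact ⟨_, _, _, ok9_13⟩
  · exact ⟨_, _, _, ok9_14⟩
  · exact ⟨_, _, _, ok9_15⟩
  · exact ⟨_, _, _, ok9_16⟩
  · exact ⟨_, _, _, ok9_17⟩

end Pool.Agent.J4H96.DP
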