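import Mathlib

/-! Certificate checker for extensions of finite pieces of 1-differential posets. -/

set_option autoImplicit false

namespace Pool.Agent.J4H96.DP

/-- Number of set bits among the first `n` bits. -/
def pcount : ℕ → ℕ → ℕ
  | 0, _ => 0
  | n + 1, a => a % 2 + pcount n (a / 2)

/-- Steps of a certificate. -/
inductive Instr : Type
  | force (x B : ℕ)
  | branch (x y : ℕ) (vs bs : List ℕ)
  | indep (x : ℕ) (ys : List ℕ)
  | bound
  | done (idx : ℕ)

/-- Search state. -/
structure St : Type where
  rem : List ℕ
  cap : List ℕ
  g : List ℕ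
  t : ℕ
  placed : List ℕ

def updRem : List ℕ → ℕ → ℕ → List ℕ
  | [], _, _ => []
  | r :: rs, b, B => (if b % 2 = 1 then r ^^^ (r &&& B) else r) :: updRem rs (b / 2) B

def updSub (k : ℕ) : List ℕ → ℕ → List ℕ
  | [], _ => []
  | c :: cs, b => (if b % 2 = 1 then c - k else c) :: updSub k cs (b / 2)

def place (N : ℕ) (s : St) (B : ℕ) : St :=
  { rem := updRem s.rem B B
    cap := updSub 1 s.cap B
    g := updSub (pcount N B - 1) s.g B
    t := s.t - 1
    placed := B :: s.placed }

def cands (rem cap : List ℕ) : List ℕ → ℕ → List ℕ
  | [], cur => [cur]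
  | v :: vs, cur =>
    if cap.getD v 0 ≠ 0 ∧ (rem.getD v 0) &&& cur = cur then
      cands rem cap vs (cur ||| 2 ^ v) ++ cands rem cap vs cur
    else cands rem cap vs cur

def maskOf : List ℕ → ℕ
  | [] => 0
  | v :: vs => 2 ^ v ||| maskOf vs

def indepOk (rem : List ℕ) : List ℕ → Bool
  | [] => true
  | y :: ys => ys.all (fun z => !(rem.getD y 0).testBit z && Nat.beq y z == false) && indepOk rem ys

def wt (c g : ℕ) : ℕ :=
  let q := min (g / c) 5
  420 / ((q + 1) * (q + 2)) * (q * (q + 1) * c + g)

def bsum : List ℕ → List ℕ → ℕ
  | c :: cs, g :: gs => wt c g + bsum cs gs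
  | _, _ => 0

def singles : ℕ → List ℕ → List ℕ
  | _, [] => []
  | i, c :: cs => List.replicate c (2 ^ i) ++ singles (i + 1) cs

/-- The checker. -/
def run (N : ℕ) (sols : List (List ℕ)) : List Instr → List St → Bool
  | [], [] => true
  | [], _ :: _ => false
  | _ :: _, [] => false
  | i :: is, s :: ss =>
    match i with
    | .force x B =>
      decide (x < N) && decide (s.cap.getD x 0 = 1) && decide (B = (s.rem.getD x 0) ||| 2 ^ x)
        && decide (B < 2 ^ N) && run N sols is (place N s B :: ss)
    | .branch x y vs bs =>
      decide (x < N) && decide (y < N) && decide (x ≠ y) && (s.rem.getD x 0).testBit y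
        && decide (maskOf vs = (s.rem.getD x 0) &&& (s.rem.getD y 0))
        && decide (cands s.rem s.cap vs (2 ^ x ||| 2 ^ y) = bs)
        && run N sols is (bs.map (place N s) ++ ss)
    | .indep x ys =>
      decide (x < N) && decide (s.cap.getD x 0 < ys.length)
        && ys.all (fun y => decide (y < N) && Nat.beq x y == false && (s.rem.getD x 0).testBit y)
        && indepOk s.rem ys && run N sols is ss
    | .bound =>
      decide (s.cap.length = N) && decide (s.g.length = N)
        && (decide (s.cap.sum < s.t) || decide (bsum s.cap s.g < 420 * (s.cap.sum - s.t)))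
        && run N sols is ss
    | .done idx =>
      decide (idx < sols.length) && s.rem.all (fun r => r == 0) && decide (s.cap.length = N)
        && (s.placed ++ singles 0 s.cap).isPerm (sols.getD idx [])
        && run N sols is ss

/-- Initial data of a rank. -/
structure Lv : Type where
  rem : List ℕ
  cap : List ℕ
  g : List ℕ

/-- The state data agrees with the list of blocks. -/
def nextOk (N : ℕ) (s : List ℕ) (L : Lv) : Bool :=
  decide (L.rem.length = s.length) && decide (L.cap.length = s.length)
    && (List.range s.length).all (fun k => decide (L.cap.getD k 0 = pcount N (s.getD k 0) + 1)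
      && (List.range s.length).all (fun l => Nat.beq k l ||
        (let a := (s.getD k 0) &&& (s.getD l 0)
         if a = 0 then (L.rem.getD k 0).testBit l == false
         else (L.rem.getD k 0).testBit l && decide (pcount N a = 1))))

end Pool.Agent.J4H96.DP
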