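import Pool.Agent.J4H96.DPC8
import Pool.Agent.J4H96.DPC9
import Pool.Agent.J4H96.DPC10

/-! No 1-differential poset has rank function beginning 1, 1, 2, 3, 5, 7, 11, 15, 23, 32, 46, 65. -/

set_option autoImplicit false

namespace Pool.Agent.J4H96.DP

open Pool.Agent.J4H96.DPDef

/-- The excluded beginning. -/
def bad : List ℕ := [1, 1, 2, 3, 5, 7, 11, 15, 23, 32, 46, 65]

theorem no_bad {P : Type} [PartialOrder P] [OrderBot P] [LocallyFiniteOrder P] {ρ : P → ℕ}
    (hd : IsDifferential 1 P ρ) (h : ∀ n < 12, {x : P | ρ x = n}.ncard = bad.getD n 0) :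
    False := by
  have h0 : ∃ L ∈ lvl0, Real ρ 0 L.rem L.cap 1 := ⟨lv0_0, List.mem_cons_self, level_zero hd⟩
  have h1 := level_step hd lvl0 lvl1 okLvl0 (h 1 (by norm_num)) h0
  have h2 := level_step hd lvl1 lvl2 okLvl1 (h 2 (by norm_num)) h1
  have h3 := level_step hd lvl2 lvl3 okLvl2 (h 3 (by norm_num)) h2
  have h4 := level_step hd lvl3 lvl4 okLvl3 (h 4 (by norm_num)) h3
  have h5 := level_step hd lvl4 lvl5 okLvl4 (h 5 (by norm_num)) h4
  have h6 := level_step hd lvl5 lvl6 okLvl5 (h 6 (by norm_num)) h5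
  have h7 := level_step hd lvl6 lvl7 okLvl6 (h 7 (by norm_num)) h6
  have h8 := level_step hd lvl7 lvl8 okLvl7 (h 8 (by norm_num)) h7
  have h9 := level_step hd lvl8 lvl9 okLvl8 (h 9 (by norm_num)) h8
  have h10 := level_step hd lvl9 lvl10 okLvl9 (h 10 (by norm_num)) h9
  have h11 := level_step hd lvl10 lvl11 okLvl10 (h 11 (by norm_num)) h10
  obtain ⟨L, hL, _⟩ := h11
  simp [lvl11] at hL

end Pool.Agent.J4H96.DP
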