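import Pool.Agent.J4H96.DPCheck

set_option autoImplicit false

namespace Pool.Agent.J4H96.DP

/-- The set bits below `N`. -/
def bits (N a : ℕ) : Finset ℕ := (Finset.range N).filter (fun i => a.testBit i = true)

lemma mem_bits {N a i : ℕ} : i ∈ bits N a ↔ i < N ∧ a.testBit i = true := by
  simp [bits]

lemma pcount_eq : ∀ (N a : ℕ), pcount N a = (bits N a).card
  | 0, a => by simp [pcount, bits]
  | N + 1, a => by
    rw [pcount, pcount_eq N (a / 2), bits, bits, Finset.card_filter, Finset.card_filter,
      Finset.sum_range_succ']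
    simp only [Nat.testBit_succ, Nat.testBit_zero]
    rcases Nat.mod_two_eq_zero_or_one a with h | h
    · simp [h]
    · simp [h, add_comm]

lemma updRem_getD (B : ℕ) : ∀ (rs : List ℕ) (b i : ℕ), (updRem rs b B).getD i 0 =
    if b.testBit i = true then (rs.getD i 0) ^^^ ((rs.getD i 0) &&& B) else rs.getD i 0
  | [], b, i => by simp [updRem]
  | r :: rs, b, 0 => by
    simp only [updRem, List.getD_cons_zero, Nat.testBit_zero, decide_eq_true_eq]
  | r :: rs, b, i + 1 => by
    simp only [updRem, List.getD_cons_succ, updRem_getD B rs (b / 2) i, Nat.testBit_succ]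

lemma updSub_getD (k : ℕ) : ∀ (cs : List ℕ) (b i : ℕ), (updSub k cs b).getD i 0 =
    if b.testBit i = true then cs.getD i 0 - k else cs.getD i 0
  | [], b, i => by simp [updSub]
  | c :: cs, b, 0 => by
    simp only [updSub, List.getD_cons_zero, Nat.testBit_zero, decide_eq_true_eq]
  | c :: cs, b, i + 1 => by
    simp only [updSub, List.getD_cons_succ, updSub_getD k cs (b / 2) i, Nat.testBit_succ]

/-- `M` completes the state. -/
structure Sol (N : ℕ) (rem cap g : List ℕ) (t : ℕ) (M : Multiset ℕ) : Prop where
  pos : ∀ B ∈ M, B ≠ 0 ∧ B < 2 ^ N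
  deg : ∀ i < N, M.countP (fun B => B.testBit i = true) = cap.getD i 0
  pair : ∀ i < N, ∀ j < N, i ≠ j →
    M.countP (fun B => B.testBit i = true ∧ B.testBit j = true)
      = if (rem.getD i 0).testBit j = true then 1 else 0
  gs : ∀ i < N, ((M.filter (fun B => B.testBit i = true)).map
    (fun B => (bits N B).card - 1)).sum = g.getD i 0
  card : M.card = t

lemma sol_place {N t B : ℕ} {rem cap g : List ℕ} {M : Multiset ℕ}
    (h : Sol N rem cap g t (B ::ₘ M)) :
    Sol N (updRem rem B B) (updSub 1 cap B) (updSub (pcount N B - 1) g B) (t - 1) M := by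
  refine ⟨fun A hA => h.pos A (Multiset.mem_cons_of_mem hA), ?_, ?_, ?_, ?_⟩
  · intro i hi
    have h1 := h.deg i hi
    rw [Multiset.countP_cons] at h1
    rw [updSub_getD]
    split_ifs with hb
    · rw [if_pos hb] at h1
      omega
    · rw [if_neg hb] at h1
      omega
  · intro i hi j hj hij
    have h1 := h.pair i hi j hj hij
    rw [Multiset.countP_cons] at h1
    rw [updRem_getD]
    by_cases hb : B.testBit i = true
    · by_cases hc : B.testBit j = true
      · rw [if_pos ⟨hb, hc⟩] at h1
        have hr : (rem.getD i 0).testBit j = true := by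
          by_contra hne
          rw [if_neg hne] at h1
          omega
        rw [if_pos hr] at h1
        rw [if_pos hb, Nat.testBit_xor, Nat.testBit_and, hr, hc]
        simp only [Bool.and_self, Bool.xor_self, Bool.false_eq_true, if_false]
        omega
      · rw [if_neg (fun h2 => hc h2.2)] at h1
        rw [if_pos hb, Nat.testBit_xor, Nat.testBit_and, Bool.eq_false_iff.mpr hc]
        simp only [Bool.and_false, Bool.xor_false]
        exact h1
    · rw [if_neg (fun h2 => hb h2.1)] at h1
      rw [if_neg hb]
      exact h1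
  · intro i hi
    have h1 := h.gs i hi
    rw [updSub_getD]
    split_ifs with hb
    · rw [Multiset.filter_cons_of_pos (p := fun B : ℕ => B.testBit i = true) _ hb, Multiset.map_cons,
        Multiset.sum_cons] at h1
      rw [pcount_eq]
      omega
    · rw [Multiset.filter_cons_of_neg (p := fun B : ℕ => B.testBit i = true) _ hb] at h1
      exact h1
  · have h1 := h.card
    rw [Multiset.card_cons] at h1
    omega

lemma testBit_lt {N B i : ℕ} (hB : B < 2 ^ N) (hi : B.testBit i = true) : i < N := by
  by_contra hne
  have h1 : B < 2 ^ i := lt_of_lt_of_le hB (Nat.pow_le_pow_right (by norm_num) (by omega))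
  rw [Nat.testBit_lt_two_pow h1] at hi
  exact absurd hi (by simp)

lemma exists_of_pair {N t : ℕ} {rem cap g : List ℕ} {M : Multiset ℕ}
    (h : Sol N rem cap g t M) {x y : ℕ} (hx : x < N) (hy : y < N) (hxy : x ≠ y)
    (hr : (rem.getD x 0).testBit y = true) :
    ∃ B ∈ M, B.testBit x = true ∧ B.testBit y = true := by
  have h1 := h.pair x hx y hy hxy
  rw [if_pos hr] at h1
  have h2 : 0 < M.countP (fun B => B.testBit x = true ∧ B.testBit y = true) := by omega
  rw [Multiset.countP_pos] at h2
  exact h2

lemma adj_of_mem {N t : ℕ} {rem cap g : List ℕ} {M : Multiset ℕ}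
    (h : Sol N rem cap g t M) {x y B : ℕ} (hB : B ∈ M) (hxy : x ≠ y)
    (hx : B.testBit x = true) (hy : B.testBit y = true) :
    (rem.getD x 0).testBit y = true := by
  have hlt := (h.pos B hB).2
  have h1 := h.pair x (testBit_lt hlt hx) y (testBit_lt hlt hy) hxy
  have h2 : 0 < M.countP (fun B => B.testBit x = true ∧ B.testBit y = true) := by
    rw [Multiset.countP_pos]
    exact ⟨B, hB, hx, hy⟩
  by_contra hne
  rw [if_neg hne] at h1
  omega

lemma cap_of_mem {N t : ℕ} {rem cap g : List ℕ} {M : Multiset ℕ}
    (h : Sol N rem cap g t M) {x B : ℕ} (hB : B ∈ M)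
    (hx : B.testBit x = true) : cap.getD x 0 ≠ 0 := by
  have hlt := (h.pos B hB).2
  have h1 := h.deg x (testBit_lt hlt hx)
  have h2 : 0 < M.countP (fun B => B.testBit x = true) := by
    rw [Multiset.countP_pos]
    exact ⟨B, hB, hx⟩
  omega

lemma testBit_or_two_pow (a v i : ℕ) :
    (a ||| 2 ^ v).testBit i = true ↔ a.testBit i = true ∨ i = v := by
  rw [Nat.testBit_or, Nat.testBit_two_pow, Bool.or_eq_true, decide_eq_true_eq]
  constructor
  · rintro (h | h)
    · exact Or.inl h
    · exact Or.inr h.symm
  · rintro (h | h)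
    · exact Or.inl h
    · exact Or.inr h.symm

lemma testBit_maskOf (i : ℕ) : ∀ vs : List ℕ, (maskOf vs).testBit i = true ↔ i ∈ vs
  | [] => by simp [maskOf]
  | v :: vs => by
    rw [maskOf, Nat.or_comm, testBit_or_two_pow, testBit_maskOf i vs, List.mem_cons, or_comm]

lemma mem_cands {N t : ℕ} {rem cap g : List ℕ} {M : Multiset ℕ}
    (h : Sol N rem cap g t M) {B : ℕ} (hB : B ∈ M) :
    ∀ (vs : List ℕ) (cur : ℕ), (∀ i, cur.testBit i = true → B.testBit i = true) →
      (∀ i, B.testBit i = true → cur.testBit i = true ∨ i ∈ vs) → B ∈ cands rem cap vs cur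
  | [], cur => by
    intro h1 h2
    simp only [cands, List.mem_singleton]
    apply Nat.eq_of_testBit_eq
    intro i
    by_cases hc : cur.testBit i = true
    · rw [hc, h1 i hc]
    · have : ¬ B.testBit i = true := by
        intro hb
        rcases h2 i hb with h3 | h3
        · exact hc h3
        · simp at h3
      rw [Bool.eq_false_iff.mpr hc, Bool.eq_false_iff.mpr this]
  | v :: vs, cur => by
    intro h1 h2
    rw [cands]
    by_cases hv : B.testBit v = true ∧ ¬ cur.testBit v = true
    · have hc : cap.getD v 0 ≠ 0 ∧ (rem.getD v 0) &&& cur = cur := by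
        refine ⟨cap_of_mem h hB hv.1, ?_⟩
        apply Nat.eq_of_testBit_eq
        intro i
        rw [Nat.testBit_and]
        by_cases hi : cur.testBit i = true
        · have hne : v ≠ i := by
            rintro rfl
            exact hv.2 hi
          rw [adj_of_mem h hB hne hv.1 (h1 i hi), hi]
          rfl
        · rw [Bool.eq_false_iff.mpr hi, Bool.and_false]
      rw [if_pos hc, List.mem_append]
      left
      apply mem_cands h hB vs
      · intro i hi
        rw [testBit_or_two_pow] at hi
        rcases hi with hi | hi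
        · exact h1 i hi
        · rw [hi]; exact hv.1
      · intro i hi
        rcases h2 i hi with h3 | h3
        · left
          rw [testBit_or_two_pow]
          exact Or.inl h3
        · rcases List.mem_cons.mp h3 with h4 | h4
          · left
            rw [testBit_or_two_pow]
            exact Or.inr h4
          · exact Or.inr h4
    · have hrec : B ∈ cands rem cap vs cur := by
        apply mem_cands h hB vs cur h1
        intro i hi
        rcases h2 i hi with h3 | h3
        · exact Or.inl h3
        · rcases List.mem_cons.mp h3 with h4 | h4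
          · left
            subst h4
            by_contra hne
            exact hv ⟨hi, hne⟩
          · exact Or.inr h4
      split_ifs
      · rw [List.mem_append]
        exact Or.inr hrec
      · exact hrec

lemma getD_eq_zero_of_all {l : List ℕ} (h : l.all (fun r => r == 0) = true) (i : ℕ) :
    l.getD i 0 = 0 := by
  by_cases hi : i < l.length
  · rw [List.getD_eq_getElem l 0 hi]
    rw [List.all_eq_true] at h
    have := h _ (List.getElem_mem hi)
    simpa using this
  · rw [List.getD_eq_default l 0 (by omega)]

lemma mem_singles : ∀ (cs : List ℕ) (k a : ℕ), a ∈ singles k cs →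
    ∃ j < cs.length, a = 2 ^ (k + j)
  | [], k, a => by simp [singles]
  | c :: cs, k, a => by
    intro h
    rw [singles, List.mem_append] at h
    rcases h with h | h
    · exact ⟨0, by simp, (List.mem_replicate.mp h).2⟩
    · obtain ⟨j, hj, rfl⟩ := mem_singles cs (k + 1) a h
      exact ⟨j + 1, by simpa using hj, by congr 1; omega⟩

lemma count_singles : ∀ (cs : List ℕ) (k j : ℕ),
    (singles k cs).count (2 ^ (k + j)) = cs.getD j 0
  | [], k, j => by simp [singles]
  | c :: cs, k, 0 => by
    rw [singles, List.count_append, List.getD_cons_zero, Nat.add_zero, List.count_replicate_self]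
    have h1 : (singles (k + 1) cs).count (2 ^ k) = 0 := by
      rw [List.count_eq_zero]
      intro h
      obtain ⟨j, _, hj⟩ := mem_singles cs (k + 1) _ h
      have := Nat.pow_right_injective (le_refl 2) hj
      omega
    rw [h1]
    rfl
  | c :: cs, k, j + 1 => by
    rw [singles, List.count_append, List.getD_cons_succ]
    have h1 : (List.replicate c (2 ^ k)).count (2 ^ (k + (j + 1))) = 0 := by
      rw [List.count_eq_zero]
      intro h
      have h2 := (List.mem_replicate.mp h).2
      have := Nat.pow_right_injective (le_refl 2) h2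
      omega
    rw [h1, show k + (j + 1) = (k + 1) + j by omega, count_singles cs (k + 1) j]
    omega

lemma sol_done {N t : ℕ} {rem cap g : List ℕ} {M : Multiset ℕ}
    (h : Sol N rem cap g t M) (hr : ∀ i, rem.getD i 0 = 0) (hc : cap.length = N) :
    M = (singles 0 cap : Multiset ℕ) := by
  have hform : ∀ B ∈ M, ∃ i < N, B = 2 ^ i := by
    intro B hB
    obtain ⟨i, hi⟩ := Nat.exists_testBit_of_ne_zero (h.pos B hB).1
    refine ⟨i, testBit_lt (h.pos B hB).2 hi, ?_⟩
    apply Nat.eq_of_testBit_eq
    intro j
    rw [Nat.testBit_two_pow]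
    by_cases hij : i = j
    · subst hij
      rw [hi]
      simp
    · have : ¬ B.testBit j = true := by
        intro hj
        have h1 := adj_of_mem h hB hij hi hj
        rw [hr i] at h1
        simp at h1
      rw [Bool.eq_false_iff.mpr this]
      simp [hij]
  apply Multiset.ext.mpr
  intro a
  rw [Multiset.coe_count]
  by_cases ha : ∃ i < N, a = 2 ^ i
  · obtain ⟨i, hi, rfl⟩ := ha
    have h1 := count_singles cap 0 i
    rw [Nat.zero_add] at h1
    rw [h1, ← h.deg i hi, Multiset.count]
    apply Multiset.countP_congr rfl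
    intro B hB
    obtain ⟨j, hj, rfl⟩ := hform B hB
    rw [Nat.testBit_two_pow, decide_eq_true_eq]
    apply propext
    constructor
    · intro h2
      exact (Nat.pow_right_injective (le_refl 2) h2).symm
    · rintro rfl
      rfl
  · rw [Multiset.count_eq_zero_of_notMem, List.count_eq_zero_of_not_mem]
    · intro h1
      obtain ⟨j, hj, hj2⟩ := mem_singles cap 0 a h1
      exact ha ⟨j, by omega, by rw [hj2, Nat.zero_add]⟩
    · intro h1
      exact ha (hform a h1)


/-! ### The counting bound -/

lemma sum_getD : ∀ (l : List ℕ), (∑ i ∈ Finset.range l.length, l.getD i 0) = l.sum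
  | [] => by simp
  | c :: cs => by
    rw [List.length_cons, Finset.sum_range_succ', List.sum_cons, add_comm]
    simp only [List.getD_cons_zero, List.getD_cons_succ]
    rw [sum_getD cs]

lemma bsum_getD : ∀ (c g : List ℕ), c.length = g.length →
    (∑ i ∈ Finset.range c.length, wt (c.getD i 0) (g.getD i 0)) = bsum c g
  | [], [] => by simp [bsum]
  | [], _ :: _ => by simp
  | _ :: _, [] => by simp
  | c :: cs, g :: gs => by
    intro h
    rw [List.length_cons, Finset.sum_range_succ', bsum, add_comm]
    simp only [List.getD_cons_zero, List.getD_cons_succ]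
    rw [bsum_getD cs gs (by simpa using h)]

lemma sum_countP (N : ℕ) (M : Multiset ℕ) :
    (∑ i ∈ Finset.range N, M.countP (fun B => B.testBit i = true))
      = (M.map (fun B => (bits N B).card)).sum := by
  induction M using Multiset.induction_on with
  | empty => simp
  | cons B M ih =>
    rw [Multiset.map_cons, Multiset.sum_cons, ← ih]
    simp only [Multiset.countP_cons]
    rw [Finset.sum_add_distrib, add_comm, bits, Finset.card_filter]

lemma sum_weights (N : ℕ) (W U : ℕ → ℕ) (M : Multiset ℕ) :
    (∑ i ∈ Finset.range N, W i * (U i * M.countP (fun B => B.testBit i = true)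
      + ((M.filter (fun B => B.testBit i = true)).map (fun B => (bits N B).card - 1)).sum))
      = (M.map (fun B => ∑ i ∈ bits N B, W i * (U i + ((bits N B).card - 1)))).sum := by
  induction M using Multiset.induction_on with
  | empty => simp
  | cons B M ih =>
    rw [Multiset.map_cons, Multiset.sum_cons, ← ih, bits, Finset.sum_filter,
      ← Finset.sum_add_distrib]
    apply Finset.sum_congr rfl
    intro i _
    by_cases hb : B.testBit i = true
    · rw [if_pos hb, Multiset.countP_cons_of_pos (p := fun B : ℕ => B.testBit i = true) _ hb,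
        Multiset.filter_cons_of_pos (p := fun B : ℕ => B.testBit i = true) _ hb,
        Multiset.map_cons, Multiset.sum_cons]
      simp only [bits]
      ring
    · rw [if_neg hb, Multiset.countP_cons_of_neg (p := fun B : ℕ => B.testBit i = true) _ hb,
        Multiset.filter_cons_of_neg (p := fun B : ℕ => B.testBit i = true) _ hb, zero_add]

lemma weight_ineq (q a : ℕ) (hq : q ≤ 5) :
    420 * a ≤ (a + 1) * (420 / ((q + 1) * (q + 2)) * (q * (q + 1) + a)) := by
  have key : ∀ k : ℤ, 0 ≤ ((a : ℤ) - k) * ((a : ℤ) - k - 1) := by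
    intro k
    rcases le_or_gt ((a : ℤ) - k) 0 with h | h
    · nlinarith
    · nlinarith
  have h0 := key 0
  have h1 := key 1
  have h2 := key 2
  have h3 := key 3
  have h4 := key 4
  have h5 := key 5
  interval_cases q <;> norm_num <;> zify <;> nlinarith

lemma block_ineq (N : ℕ) (q : ℕ → ℕ) (hq : ∀ i, q i ≤ 5) (B : ℕ) (hB : 0 < (bits N B).card) :
    420 * ((bits N B).card - 1) ≤ ∑ i ∈ bits N B,
      (420 / ((q i + 1) * (q i + 2))) * (q i * (q i + 1) + ((bits N B).card - 1)) := by
  set a := (bits N B).card - 1 with ha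
  have hcard : (bits N B).card = a + 1 := by omega
  have h1 : ∑ _i ∈ bits N B, 420 * a ≤ ∑ i ∈ bits N B,
      (a + 1) * ((420 / ((q i + 1) * (q i + 2))) * (q i * (q i + 1) + a)) :=
    Finset.sum_le_sum (fun i _ => weight_ineq (q i) a (hq i))
  rw [Finset.sum_const, hcard, smul_eq_mul, ← Finset.mul_sum] at h1
  exact Nat.le_of_mul_le_mul_left h1 (by omega)

lemma bits_card_pos {N B : ℕ} (h : B ≠ 0 ∧ B < 2 ^ N) : 0 < (bits N B).card := by
  obtain ⟨i, hi⟩ := Nat.exists_testBit_of_ne_zero h.1
  exact Finset.card_pos.mpr ⟨i, mem_bits.mpr ⟨testBit_lt h.2 hi, hi⟩⟩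

lemma sum_sub_one (N : ℕ) (M : Multiset ℕ) (h : ∀ B ∈ M, 0 < (bits N B).card) :
    (M.map (fun B => (bits N B).card)).sum
      = (M.map (fun B => (bits N B).card - 1)).sum + M.card := by
  induction M using Multiset.induction_on with
  | empty => simp
  | cons B M ih =>
    rw [Multiset.map_cons, Multiset.sum_cons, Multiset.map_cons, Multiset.sum_cons,
      Multiset.card_cons, ih (fun A hA => h A (Multiset.mem_cons_of_mem hA))]
    have := h B (Multiset.mem_cons_self B M)
    omega

lemma sum_block_ineq (N : ℕ) (q : ℕ → ℕ) (hq : ∀ i, q i ≤ 5) (M : Multiset ℕ)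
    (h : ∀ B ∈ M, 0 < (bits N B).card) :
    420 * (M.map (fun B => (bits N B).card - 1)).sum ≤
      (M.map (fun B => ∑ i ∈ bits N B, (420 / ((q i + 1) * (q i + 2)))
        * (q i * (q i + 1) + ((bits N B).card - 1)))).sum := by
  induction M using Multiset.induction_on with
  | empty => simp
  | cons B M ih =>
    rw [Multiset.map_cons, Multiset.sum_cons, Multiset.map_cons, Multiset.sum_cons, mul_add]
    exact add_le_add (block_ineq N q hq B (h B (Multiset.mem_cons_self B M)))
      (ih (fun A hA => h A (Multiset.mem_cons_of_mem hA)))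

lemma sol_bound {N t : ℕ} {rem cap g : List ℕ} {M : Multiset ℕ}
    (h : Sol N rem cap g t M) (hc : cap.length = N) (hg : g.length = N)
    (hb : cap.sum < t ∨ bsum cap g < 420 * (cap.sum - t)) : False := by
  have hpos : ∀ B ∈ M, 0 < (bits N B).card := fun B hB => bits_card_pos (h.pos B hB)
  have h1 : cap.sum = (M.map (fun B => (bits N B).card)).sum := by
    rw [← sum_countP, ← sum_getD, hc]
    apply Finset.sum_congr rfl
    intro i hi
    rw [h.deg i (Finset.mem_range.mp hi)]
  have h2 := sum_sub_one N M hpos
  rw [h.card, ← h1] at h2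
  have h3 := sum_block_ineq N (fun i => min (g.getD i 0 / cap.getD i 0) 5)
    (fun i => min_le_right _ _) M hpos
  rw [← sum_weights N (fun i => 420 / (((min (g.getD i 0 / cap.getD i 0) 5) + 1)
    * ((min (g.getD i 0 / cap.getD i 0) 5) + 2))) (fun i =>
      (min (g.getD i 0 / cap.getD i 0) 5) * ((min (g.getD i 0 / cap.getD i 0) 5) + 1)) M] at h3
  have h4 : (∑ i ∈ Finset.range N, (420 / (((min (g.getD i 0 / cap.getD i 0) 5) + 1)
    * ((min (g.getD i 0 / cap.getD i 0) 5) + 2))) * (
      (min (g.getD i 0 / cap.getD i 0) 5) * ((min (g.getD i 0 / cap.getD i 0) 5) + 1)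
        * M.countP (fun B => B.testBit i = true)
      + ((M.filter (fun B => B.testBit i = true)).map (fun B => (bits N B).card - 1)).sum))
      = bsum cap g := by
    rw [← bsum_getD cap g (by omega), hc]
    apply Finset.sum_congr rfl
    intro i hi
    rw [h.deg i (Finset.mem_range.mp hi), h.gs i (Finset.mem_range.mp hi)]
    rfl
  rw [h4] at h3
  rcases hb with hb | hb
  · omega
  · omega

lemma indepOk_pairwise (rem : List ℕ) : ∀ ys : List ℕ, indepOk rem ys = true →
    ys.Pairwise (fun y z => (rem.getD y 0).testBit z = false ∧ y ≠ z)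
  | [] => fun _ => List.Pairwise.nil
  | y :: ys => by
    intro h
    rw [indepOk, Bool.and_eq_true, List.all_eq_true] at h
    refine List.Pairwise.cons ?_ (indepOk_pairwise rem ys h.2)
    intro z hz
    have h1 := h.1 z hz
    rw [Bool.and_eq_true] at h1
    refine ⟨by simpa using h1.1, ?_⟩
    have h2 : Nat.beq y z = false := by simpa using h1.2
    intro h3
    subst h3
    rw [Nat.beq_refl] at h2
    exact absurd h2 (by simp)

lemma sol_indep {N t : ℕ} {rem cap g : List ℕ} {M : Multiset ℕ}
    (h : Sol N rem cap g t M) {x : ℕ} (hx : x < N) (ys : List ℕ)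
    (hy : ∀ y ∈ ys, y < N ∧ x ≠ y ∧ (rem.getD x 0).testBit y = true)
    (hp : ys.Pairwise (fun y z => (rem.getD y 0).testBit z = false ∧ y ≠ z)) :
    ys.length ≤ cap.getD x 0 := by
  classical
  have hnd : ys.Nodup := hp.imp (fun h => h.2)
  have hsep : ∀ y ∈ ys, ∀ z ∈ ys, y ≠ z → ∀ B ∈ M, ¬ (B.testBit y = true ∧ B.testBit z = true) := by
    have h1 : ys.Pairwise (fun y z => ∀ B ∈ M, ¬ (B.testBit y = true ∧ B.testBit z = true)) := by
      refine hp.imp ?_
      rintro y z ⟨h2, h3⟩ B hB ⟨hby, hbz⟩
      have := adj_of_mem h hB h3 hby hbz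
      rw [h2] at this
      exact absurd this (by simp)
    have : Std.Symm (fun y z : ℕ => ∀ B ∈ M, ¬ (B.testBit y = true ∧ B.testBit z = true)) :=
      ⟨fun a b h4 B hB h5 => h4 B hB ⟨h5.2, h5.1⟩⟩
    intro y hy z hz hyz
    exact h1.forall hy hz hyz
  have hex : ∀ y ∈ ys, ∃ B ∈ M, B.testBit x = true ∧ B.testBit y = true := by
    intro y hyy
    obtain ⟨h1, h2, h3⟩ := hy y hyy
    exact exists_of_pair h hx h1 h2 h3
  choose! F hF using hex
  have hsub : (ys.toFinset.image F) ⊆ (M.filter (fun B => B.testBit x = true)).toFinset := by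
    intro B hB
    rw [Finset.mem_image] at hB
    obtain ⟨y, hyy, rfl⟩ := hB
    rw [List.mem_toFinset] at hyy
    rw [Multiset.mem_toFinset, Multiset.mem_filter]
    exact ⟨(hF y hyy).1, (hF y hyy).2.1⟩
  have hinj : Set.InjOn F ys.toFinset := by
    intro y hyy z hz hyz
    simp only [List.coe_toFinset, Set.mem_ofPred_eq] at hyy hz
    by_contra hne
    apply hsep y hyy z hz hne (F y) (hF y hyy).1
    refine ⟨(hF y hyy).2.2, ?_⟩
    rw [hyz]
    exact (hF z hz).2.2
  have h1 := Finset.card_le_card hsub
  rw [Finset.card_image_of_injOn hinj, List.toFinset_card_of_nodup hnd] at h1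
  have h2 := Multiset.toFinset_card_le (M.filter (fun B => B.testBit x = true))
  rw [← Multiset.countP_eq_card_filter, h.deg x hx] at h2
  omega

/-! ### Soundness of the checker -/

theorem run_sound (N : ℕ) (sols : List (List ℕ)) : ∀ (is : List Instr) (ss : List St),
    run N sols is ss = true → ∀ s ∈ ss, ∀ M : Multiset ℕ, Sol N s.rem s.cap s.g s.t M →
      ∃ k < sols.length, ((s.placed : Multiset ℕ) + M) = (sols.getD k [] : Multiset ℕ)
  | [], [] => by
    intro _ s hs
    simp at hs
  | [], _ :: _ => by
    intro h
    simp [run] at h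
  | _ :: _, [] => by
    intro h
    simp [run] at h
  | .force x B :: is, s0 :: ss => by
    intro h s hs M hM
    simp only [run, Bool.and_eq_true, decide_eq_true_eq] at h
    obtain ⟨⟨⟨⟨hx, hc⟩, hB⟩, hlt⟩, hrun⟩ := h
    have ih := run_sound N sols is _ hrun
    rcases List.mem_cons.mp hs with rfl | hs
    · have h1 : 0 < M.countP (fun B => B.testBit x = true) := by
        rw [hM.deg x hx, hc]
        norm_num
      rw [Multiset.countP_pos] at h1
      obtain ⟨A, hA, hAx⟩ := h1
      have hAB : A = B := by
        apply Nat.eq_of_testBit_eq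
        intro j
        rw [Bool.eq_iff_iff, hB, testBit_or_two_pow]
        constructor
        · intro hj
          by_cases hxj : x = j
          · exact Or.inr hxj.symm
          · exact Or.inl (adj_of_mem hM hA hxj hAx hj)
        · rintro (hj | hj)
          · have hjN : j < N := by
              apply testBit_lt hlt
              rw [hB, testBit_or_two_pow]
              exact Or.inl hj
            by_cases hxj : x = j
            · subst hxj
              exact hAx
            · obtain ⟨C, hC, hCx, hCj⟩ := exists_of_pair hM hx hjN hxj hj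
              have h2 := hM.deg x hx
              rw [hc, Multiset.countP_eq_card_filter, Multiset.card_eq_one] at h2
              obtain ⟨D, hD⟩ := h2
              have h3 : A ∈ M.filter (fun B => B.testBit x = true) :=
                Multiset.mem_filter.mpr ⟨hA, hAx⟩
              have h4 : C ∈ M.filter (fun B => B.testBit x = true) :=
                Multiset.mem_filter.mpr ⟨hC, hCx⟩
              rw [hD, Multiset.mem_singleton] at h3 h4
              rw [h3, ← h4]
              exact hCj
          · rw [hj]
            exact hAx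
      subst hAB
      obtain ⟨M', rfl⟩ := Multiset.exists_cons_of_mem hA
      obtain ⟨k, hk, hk2⟩ := ih _ (List.mem_cons_self) M' (sol_place hM)
      refine ⟨k, hk, ?_⟩
      rw [← hk2]
      simp only [place]
      rw [← Multiset.cons_coe, Multiset.cons_add, Multiset.add_cons]
    · exact ih s (List.mem_cons_of_mem _ hs) M hM
  | .branch x y vs bs :: is, s0 :: ss => by
    intro h s hs M hM
    simp only [run, Bool.and_eq_true, decide_eq_true_eq] at h
    obtain ⟨⟨⟨⟨⟨⟨hx, hy⟩, hxy⟩, hr⟩, hm⟩, hb⟩, hrun⟩ := h
    have ih := run_sound N sols is _ hrun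
    rcases List.mem_cons.mp hs with rfl | hs
    · obtain ⟨A, hA, hAx, hAy⟩ := exists_of_pair hM hx hy hxy hr
      have hmem : A ∈ cands s.rem s.cap vs (2 ^ x ||| 2 ^ y) := by
        apply mem_cands hM hA
        · intro i hi
          rw [testBit_or_two_pow, Nat.testBit_two_pow, decide_eq_true_eq] at hi
          rcases hi with rfl | rfl
          · exact hAx
          · exact hAy
        · intro i hi
          by_cases h1 : (2 ^ x ||| 2 ^ y).testBit i = true
          · exact Or.inl h1
          · right
            rw [testBit_or_two_pow, Nat.testBit_two_pow, decide_eq_true_eq, not_or] at h1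
            rw [← testBit_maskOf, hm, Nat.testBit_and, adj_of_mem hM hA h1.1 hAx hi,
              adj_of_mem hM hA (Ne.symm h1.2) hAy hi]
            rfl
      rw [hb] at hmem
      obtain ⟨M', rfl⟩ := Multiset.exists_cons_of_mem hA
      obtain ⟨k, hk, hk2⟩ := ih (place N s A)
        (List.mem_append_left _ (List.mem_map_of_mem hmem)) M' (sol_place hM)
      refine ⟨k, hk, ?_⟩
      rw [← hk2]
      simp only [place]
      rw [← Multiset.cons_coe, Multiset.cons_add, Multiset.add_cons]
    · exact ih s (List.mem_append_right _ hs) M hM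
  | .indep x ys :: is, s0 :: ss => by
    intro h s hs M hM
    simp only [run, Bool.and_eq_true, decide_eq_true_eq, List.all_eq_true] at h
    obtain ⟨⟨⟨⟨hx, hc⟩, hy⟩, hp⟩, hrun⟩ := h
    have ih := run_sound N sols is _ hrun
    rcases List.mem_cons.mp hs with rfl | hs
    · exfalso
      have h1 := sol_indep hM hx ys (fun y hyy => by
        obtain ⟨⟨h2, h3⟩, h4⟩ := hy y hyy
        refine ⟨h2, ?_, h4⟩
        have h5 : Nat.beq x y = false := by simpa using h3
        intro h6
        subst h6
        rw [Nat.beq_refl] at h5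
        exact absurd h5 (by simp)) (indepOk_pairwise _ ys hp)
      omega
    · exact ih s hs M hM
  | .bound :: is, s0 :: ss => by
    intro h s hs M hM
    simp only [run, Bool.and_eq_true, Bool.or_eq_true, decide_eq_true_eq] at h
    obtain ⟨⟨⟨hc, hg⟩, hb⟩, hrun⟩ := h
    have ih := run_sound N sols is _ hrun
    rcases List.mem_cons.mp hs with rfl | hs
    · exact (sol_bound hM hc hg hb).elim
    · exact ih s hs M hM
  | .done idx :: is, s0 :: ss => by
    intro h s hs M hM
    simp only [run, Bool.and_eq_true, decide_eq_true_eq] at h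
    obtain ⟨⟨⟨⟨hidx, hr⟩, hc⟩, hperm⟩, hrun⟩ := h
    have ih := run_sound N sols is _ hrun
    rcases List.mem_cons.mp hs with rfl | hs
    · refine ⟨idx, hidx, ?_⟩
      have h1 := sol_done hM (getD_eq_zero_of_all hr) hc
      rw [h1, Multiset.coe_add, Multiset.coe_eq_coe]
      exact List.isPerm_iff.mp hperm
    · exact ih s hs M hM

end Pool.Agent.J4H96.DP
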