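import Mathlib

/-!
# The algebraic heart: a finitely generated integral domain is not self-reflective

For a domain `A` generated by a tuple `a`, a tuple `b` which has the same polynomial relations as
`a`, and such that every system (k distinct roots of a polynomial with coefficients in `ℤ[b]`)
solvable at `b` is solvable at `a`, also generates `A`.
-/

namespace Pool.Agent.J4H96.Dom

open MvPolynomial Set

variable {A : Type*} [CommRing A] [IsDomain A]

theorem isAlgebraic_adjoin {R : Type*} [CommRing R] [Algebra R A] [IsDomain R] [FaithfulSMul R A]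
    {n : ℕ} (a b : Fin n → A)
    (ha : Function.Surjective (aeval a : MvPolynomial (Fin n) R →ₐ[R] A))
    (H : ∀ p : MvPolynomial (Fin n) R, aeval a p = 0 ↔ aeval b p = 0) :
    Algebra.IsAlgebraic (Algebra.adjoin R (range b)) A := by
  classical
  set B := Algebra.adjoin R (range b) with hB
  have hfin : Algebra.FiniteType R A := by
    exact Algebra.FiniteType.of_surjective (aeval a) ha
  have hlt : Algebra.trdeg R A < Cardinal.aleph0 := trdeg_lt_aleph0_of_finiteType
  -- the map `A → B`
  have hbB : ∀ p : MvPolynomial (Fin n) R, aeval b p ∈ B := by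
    intro p
    rw [hB, Algebra.adjoin_range_eq_range_aeval]
    exact ⟨p, rfl⟩
  let gb : MvPolynomial (Fin n) R →ₐ[R] B := (aeval b).codRestrict B hbB
  have hker : ∀ p, p ∈ RingHom.ker (aeval a : MvPolynomial (Fin n) R →ₐ[R] A) → gb p = 0 := by
    intro p hp
    rw [RingHom.mem_ker] at hp
    exact Subtype.ext ((H p).1 hp)
  let e := Ideal.quotientKerAlgEquivOfSurjective ha
  let f : A →ₐ[R] B := (Ideal.Quotient.liftₐ _ gb hker).comp e.symm.toAlgHom
  have hf : Function.Injective f := by
    rw [injective_iff_map_eq_zero]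
    intro x hx
    obtain ⟨p, rfl⟩ := ha x
    have h1 : e (Ideal.Quotient.mk _ p) = aeval a p :=
      Ideal.quotientKerAlgEquivOfSurjective_mk ha p
    have h2 : e.symm (aeval a p) = Ideal.Quotient.mk _ p := by
      rw [← h1, e.symm_apply_apply]
    have h3 : f (aeval a p) = gb p := by
      show (Ideal.Quotient.liftₐ _ gb hker) (e.symm (aeval a p)) = gb p
      rw [h2]
      rfl
    rw [h3] at hx
    exact (H p).2 (congrArg Subtype.val hx)
  have h1 : Algebra.trdeg R A ≤ Algebra.trdeg R B := trdeg_le_of_injective f hf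
  have h2 : Algebra.trdeg R B + Algebra.trdeg B A = Algebra.trdeg R A := by
    have : FaithfulSMul R B := by
      rw [faithfulSMul_iff_algebraMap_injective]
      intro x y hxy
      have := congrArg (algebraMap B A) hxy
      rw [← IsScalarTower.algebraMap_apply, ← IsScalarTower.algebraMap_apply] at this
      exact (faithfulSMul_iff_algebraMap_injective R A).1 inferInstance this
    exact trdeg_add_eq R B
  rw [← trdeg_eq_zero_iff]
  by_contra h0
  have h3 : Algebra.trdeg R B + 1 ≤ Algebra.trdeg R A := by
    rw [← h2]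
    gcongr
    exact Cardinal.one_le_iff_ne_zero.2 h0
  have h4 : Algebra.trdeg R A + 1 ≤ Algebra.trdeg R A := le_trans (by gcongr) h3
  obtain ⟨m, hm⟩ := Cardinal.lt_aleph0.1 hlt
  rw [hm] at h4
  exact absurd h4 (by exact_mod_cast (Nat.not_succ_le_self m))

/-- The key algebraic lemma. -/
theorem key {n : ℕ} (a b : Fin n → A)
    (ha : Function.Surjective (aeval a : MvPolynomial (Fin n) ℤ →ₐ[ℤ] A))
    (H0 : ∀ p : MvPolynomial (Fin n) ℤ, aeval a p = 0 ↔ aeval b p = 0)
    (H1 : ∀ (k d : ℕ) (p : Fin d → MvPolynomial (Fin n) ℤ),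
      (∃ y : Fin k → A, Function.Injective y ∧ ∀ i, ∑ j, aeval b (p j) * y i ^ (j : ℕ) = 0) →
      ∃ y : Fin k → A, Function.Injective y ∧ ∀ i, ∑ j, aeval a (p j) * y i ^ (j : ℕ) = 0) :
    Function.Surjective (aeval b : MvPolynomial (Fin n) ℤ →ₐ[ℤ] A) := by
  classical
  set q := ringChar A with hq
  have hchar : CharP A q := ringChar.charP A
  let : Algebra (ZMod q) A := ZMod.algebra A q
  have hdom : IsDomain (ZMod q) := by
    rcases (CharP.char_is_prime_or_zero A q) with h | h
    · have : Fact q.Prime := ⟨h⟩
      infer_instance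
    · rw [h]
      exact (inferInstance : IsDomain ℤ)
  have hfaith : FaithfulSMul (ZMod q) A := by
    rw [faithfulSMul_iff_algebraMap_injective]
    exact ZMod.castHom_injective A
  -- comparison of polynomials over `ℤ` and over `ZMod q`
  have hmap : ∀ (c : Fin n → A) (p : MvPolynomial (Fin n) ℤ),
      (aeval c (MvPolynomial.map (Int.castRingHom (ZMod q)) p) : A) = aeval c p := by
    intro c p
    rw [aeval_def, aeval_def, eval₂_map]
    congr 1
    exact Subsingleton.elim _ _
  have hsurj : Function.Surjective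
      (MvPolynomial.map (Int.castRingHom (ZMod q)) :
        MvPolynomial (Fin n) ℤ → MvPolynomial (Fin n) (ZMod q)) :=
    MvPolynomial.map_surjective _ (ZMod.intCast_surjective)
  have ha' : Function.Surjective (aeval a : MvPolynomial (Fin n) (ZMod q) →ₐ[ZMod q] A) := by
    intro x
    obtain ⟨p, hp⟩ := ha x
    exact ⟨MvPolynomial.map (Int.castRingHom (ZMod q)) p, by rw [hmap, hp]⟩
  have H0' : ∀ p : MvPolynomial (Fin n) (ZMod q), aeval a p = 0 ↔ aeval b p = 0 := by
    intro p
    obtain ⟨p, rfl⟩ := hsurj p
    rw [hmap, hmap]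
    exact H0 p
  have hgen : ∀ x, x ∈ Algebra.adjoin (ZMod q) (range b) →
      ∃ p : MvPolynomial (Fin n) ℤ, aeval b p = x := by
    intro x hx
    rw [Algebra.adjoin_range_eq_range_aeval] at hx
    obtain ⟨p, hp⟩ := hx
    obtain ⟨p, rfl⟩ := hsurj p
    refine ⟨p, ?_⟩
    rw [← hp]
    exact (hmap b p).symm
  have halg := isAlgebraic_adjoin (R := ZMod q) a b ha' H0'
  intro x
  set B := Algebra.adjoin (ZMod q) (range b) with hB
  obtain ⟨P, hP0, hPx⟩ := halg.isAlgebraic x
  have hinj : Function.Injective (algebraMap B A) := Subtype.val_injective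
  set PA : Polynomial A := P.map (algebraMap B A) with hPA
  have hPA0 : PA ≠ 0 := (Polynomial.map_ne_zero_iff hinj).2 hP0
  have hdeg : PA.natDegree = P.natDegree := Polynomial.natDegree_map_eq_of_injective hinj P
  choose c hc using hgen
  let p : Fin (P.natDegree + 1) → MvPolynomial (Fin n) ℤ := fun j =>
    c (P.coeff j : B) (P.coeff j).2
  have hp : ∀ j, aeval b (p j) = ((P.coeff j : B) : A) := fun j => hc _ _
  have heval : ∀ y : A, ∑ j : Fin (P.natDegree + 1), aeval b (p j) * y ^ (j : ℕ) = PA.eval y := by
    intro y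
    rw [Polynomial.eval_eq_sum_range, hdeg, Finset.sum_range]
    refine Finset.sum_congr rfl fun j _ => ?_
    rw [hp, hPA, Polynomial.coeff_map]
    rfl
  set s : Finset A := PA.roots.toFinset with hs
  have hmem : ∀ y, y ∈ s ↔ PA.eval y = 0 := by
    intro y
    rw [hs, Multiset.mem_toFinset, Polynomial.mem_roots hPA0, Polynomial.IsRoot.def]
  have hx : x ∈ s := by
    rw [hmem, hPA, Polynomial.eval_map_algebraMap]
    exact hPx
  let e := s.equivFin
  obtain ⟨y', hy'inj, hy'⟩ := H1 s.card (P.natDegree + 1) p
    ⟨fun i => (e.symm i : A), fun i j hij => e.symm.injective (Subtype.ext hij), fun i => by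
      rw [heval, ← hmem]
      exact (e.symm i).2⟩
  choose r hr using fun i => ha (y' i)
  have hzinj : Function.Injective fun i => (aeval b (r i) : A) := by
    intro i j hij
    have h1 : aeval b (r i - r j) = (0 : A) := by
      rw [map_sub, sub_eq_zero]
      exact hij
    rw [← H0, map_sub, sub_eq_zero, hr, hr] at h1
    exact hy'inj h1
  have hzroot : ∀ i, (aeval b (r i) : A) ∈ s := by
    intro i
    rw [hmem, ← heval]
    have h1 := hy' i
    rw [← hr] at h1
    have h2 : aeval a (∑ j, p j * r i ^ (j : ℕ)) = (0 : A) := by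
      rw [map_sum]
      simpa using h1
    rw [H0, map_sum] at h2
    simpa using h2
  have himage : Finset.univ.image (fun i => (aeval b (r i) : A)) = s := by
    apply Finset.eq_of_subset_of_card_le
    · intro z hz
      rw [Finset.mem_image] at hz
      obtain ⟨i, _, rfl⟩ := hz
      exact hzroot i
    · rw [Finset.card_image_of_injective _ hzinj]
      simp
  rw [← himage, Finset.mem_image] at hx
  obtain ⟨i, _, hi⟩ := hx
  exact ⟨r i, hi⟩

end Pool.Agent.J4H96.Dom
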