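import Mathlib

/-!
# Infinitary formulas, their complexity classes, and Scott sentences

`InfForm L n` is the type of formulas of the infinitary logic (countable conjunctions and
disjunctions, finite strings of quantifiers) over the first-order language `L`, with free variables
among `n` variables.  The classes `IsSigma α` and `IsPi α` are the usual syntactic classes, and a
formula is d-Sigma-α if it is the conjunction of a Sigma-α and of a Pi-α formula.
-/

namespace Pool.Agent.J4H96.Scott

open FirstOrder

universe u v w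

/-- Formulas of the infinitary logic over `L` with free variables indexed by `Fin n`:
finitary quantifier-free formulas, negation, countable disjunctions and conjunctions, and
existential and universal quantification over a finite block of `k` variables (the new variables
are put in front of the old ones). -/
inductive InfForm (L : FirstOrder.Language.{u, v}) : ℕ → Type (max u v)
  | qf {n : ℕ} (φ : L.Formula (Fin n)) (hφ : φ.IsQF) : InfForm L n
  | neg {n : ℕ} (φ : InfForm L n) : InfForm L n
  | disj {n : ℕ} (φ : ℕ → InfForm L n) : InfForm L n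
  | conj {n : ℕ} (φ : ℕ → InfForm L n) : InfForm L n
  | exs {n : ℕ} (k : ℕ) (φ : InfForm L (k + n)) : InfForm L n
  | alls {n : ℕ} (k : ℕ) (φ : InfForm L (k + n)) : InfForm L n

/-- Satisfaction of an infinitary formula in the `L`-structure `M` under an assignment `v` of its
free variables. -/
def InfForm.Realize {L : FirstOrder.Language.{u, v}} (M : Type w) [L.Structure M] :
    ∀ {n : ℕ}, InfForm L n → (Fin n → M) → Prop
  | _, .qf φ _, v => φ.Realize v
  | _, .neg φ, v => ¬ InfForm.Realize M φ v
  | _, .disj φ, v => ∃ i, InfForm.Realize M (φ i) v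
  | _, .conj φ, v => ∀ i, InfForm.Realize M (φ i) v
  | _, .exs k φ, v => ∃ x : Fin k → M, InfForm.Realize M φ (Fin.append x v)
  | _, .alls k φ, v => ∀ x : Fin k → M, InfForm.Realize M φ (Fin.append x v)

mutual

/-- `IsSigma α φ`: `φ` is a `Σ⁰_α` formula: for `α = 0` a finitary quantifier-free formula, and for
`α > 0` a countable disjunction of formulas `∃ x̄ ψ` with `ψ` in `Π⁰_β` for some `β < α`. -/
inductive IsSigma {L : FirstOrder.Language.{u, v}} : Ordinal.{0} → ∀ {n : ℕ}, InfForm L n → Prop
  | zero {n : ℕ} (φ : L.Formula (Fin n)) (hφ : φ.IsQF) : IsSigma 0 (InfForm.qf φ hφ)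
  | pos {α : Ordinal.{0}} {n : ℕ} (k : ℕ → ℕ) (ψ : ∀ i, InfForm L (k i + n))
      (β : ℕ → Ordinal.{0}) (hβ : ∀ i, β i < α) (h : ∀ i, IsPi (β i) (ψ i)) :
      IsSigma α (InfForm.disj fun i => InfForm.exs (k i) (ψ i))

/-- `IsPi α φ`: `φ` is a `Π⁰_α` formula: for `α = 0` a finitary quantifier-free formula, and for
`α > 0` a countable conjunction of formulas `∀ x̄ ψ` with `ψ` in `Σ⁰_β` for some `β < α`. -/
inductive IsPi {L : FirstOrder.Language.{u, v}} : Ordinal.{0} → ∀ {n : ℕ}, InfForm L n → Prop
  | zero {n : ℕ} (φ : L.Formula (Fin n)) (hφ : φ.IsQF) : IsPi 0 (InfForm.qf φ hφ)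
  | pos {α : Ordinal.{0}} {n : ℕ} (k : ℕ → ℕ) (ψ : ∀ i, InfForm L (k i + n))
      (β : ℕ → Ordinal.{0}) (hβ : ∀ i, β i < α) (h : ∀ i, IsSigma (β i) (ψ i)) :
      IsPi α (InfForm.conj fun i => InfForm.alls (k i) (ψ i))

end

/-- The binary conjunction of two infinitary formulas (`φ` in place `0`, `ψ` in all others). -/
def InfForm.and {L : FirstOrder.Language.{u, v}} {n : ℕ} (φ ψ : InfForm L n) : InfForm L n :=
  InfForm.conj fun i => if i = 0 then φ else ψ

/-- `IsDSigma α φ`: `φ` is d-`Σ⁰_α`, the conjunction of a `Σ⁰_α` formula and a `Π⁰_α` formula. -/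
def IsDSigma {L : FirstOrder.Language.{u, v}} (α : Ordinal.{0}) {n : ℕ} (φ : InfForm L n) : Prop :=
  ∃ σ π : InfForm L n, IsSigma α σ ∧ IsPi α π ∧ φ = σ.and π

/-- A Scott sentence for `A`: a sentence whose countable models (in any universe) are exactly the
structures isomorphic to `A`. -/
def IsScottSentence {L : FirstOrder.Language.{u, v}} (φ : InfForm L 0) (A : Type*) [L.Structure A] : Prop :=
  ∀ (M : Type w) [Countable M] [L.Structure M],
    φ.Realize M (Fin.elim0 : Fin 0 → M) ↔ Nonempty (M ≃[L] A)

end Pool.Agent.J4H96.Scott
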