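import Pool.Agent.J4H96.ScottDefs

/-!
# A structure generated by a tuple whose Π₁-type forces generation has a d-Σ₂ Scott sentence
-/

namespace Pool.Agent.J4H96.Scott

open FirstOrder

universe u v w w'

variable {L : FirstOrder.Language.{u, v}}

/-- Satisfaction of infinitary formulas is invariant under isomorphism. -/
theorem InfForm.realize_equiv {M : Type w} {N : Type w'} [L.Structure M] [L.Structure N]
    (f : M ≃[L] N) : ∀ {n : ℕ} (φ : InfForm L n) (x : Fin n → M),
      φ.Realize N (f ∘ x) ↔ φ.Realize M x
  | _, .qf φ _, x => by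
      simp only [InfForm.Realize]
      exact Language.StrongHomClass.realize_formula f φ
  | _, .neg φ, x => by
      simp only [InfForm.Realize]
      rw [InfForm.realize_equiv f φ x]
  | _, .disj φ, x => by
      simp only [InfForm.Realize]
      exact exists_congr fun i => InfForm.realize_equiv f (φ i) x
  | _, .conj φ, x => by
      simp only [InfForm.Realize]
      exact forall_congr' fun i => InfForm.realize_equiv f (φ i) x
  | _, .exs (n := n) k φ, x => by
      simp only [InfForm.Realize]
      constructor
      · rintro ⟨y, hy⟩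
        refine ⟨f.symm ∘ y, ?_⟩
        rw [← InfForm.realize_equiv f φ]
        convert hy using 1
        funext i
        refine Fin.addCases (fun j => ?_) (fun j => ?_) i <;> simp
      · rintro ⟨y, hy⟩
        refine ⟨f ∘ y, ?_⟩
        rw [← InfForm.realize_equiv f φ] at hy
        convert hy using 1
        funext i
        refine Fin.addCases (fun j => ?_) (fun j => ?_) i <;> simp
  | _, .alls (n := n) k φ, x => by
      simp only [InfForm.Realize]
      constructor
      · intro h y
        rw [← InfForm.realize_equiv f φ]
        convert h (f ∘ y) using 1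
        funext i
        refine Fin.addCases (fun j => ?_) (fun j => ?_) i <;> simp
      · intro h y
        have := h (f.symm ∘ y)
        rw [← InfForm.realize_equiv f φ] at this
        convert this using 1
        funext i
        refine Fin.addCases (fun j => ?_) (fun j => ?_) i <;> simp

theorem append_elim0 {M : Type w} {n : ℕ} (x : Fin n → M) (v : Fin 0 → M) :
    (Fin.append x v : Fin n → M) = x := by
  funext i
  exact Fin.append_left x v i

theorem InfForm.realize_and {M : Type w} [L.Structure M] {n : ℕ} (φ ψ : InfForm L n)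
    (x : Fin n → M) : (φ.and ψ).Realize M x ↔ φ.Realize M x ∧ ψ.Realize M x := by
  unfold InfForm.and
  simp only [InfForm.Realize]
  constructor
  · intro h
    exact ⟨by simpa using h 0, by simpa using h 1⟩
  · rintro ⟨h1, h2⟩ i
    by_cases hi : i = 0
    · simpa [hi] using h1
    · simpa [hi] using h2

/-- `¬ θ`, with a dummy last variable. -/
def chiL {m n : ℕ} (θ : L.Formula (Fin (m + n))) (h : θ.IsQF) : InfForm L (m + (n + 1)) :=
  .qf (θ.relabel (Fin.castSucc : Fin (m + n) → Fin (m + (n + 1)))).not (h.relabel _).not

theorem realize_chiL {M : Type w} [L.Structure M] {m n : ℕ} (θ : L.Formula (Fin (m + n)))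
    (h : θ.IsQF) (x : Fin m → M) (y : Fin (n + 1) → M) :
    (chiL θ h).Realize M (Fin.append x y) ↔ ¬ θ.Realize (Fin.append x (y ∘ Fin.castSucc)) := by
  have h1 : (Fin.append x y ∘ (Fin.castSucc : Fin (m + n) → Fin (m + (n + 1)))) =
      Fin.append x (y ∘ Fin.castSucc) := by
    funext i
    refine Fin.addCases (fun j => ?_) (fun j => ?_) i
    · rw [Fin.append_left]
      exact Fin.append_left x y j
    · rw [Fin.append_right]
      exact Fin.append_right x y j.castSucc
  unfold chiL
  simp only [InfForm.Realize]
  rw [Language.Formula.realize_not, Language.Formula.realize_relabel, h1]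

/-- `z = t(x̄)`, in the variables `x̄ z`. -/
def chiR {n : ℕ} (t : L.Term (Fin n)) : InfForm L (0 + (n + 1)) :=
  .qf ((Language.Term.var (Fin.natAdd 0 (Fin.last n)) : L.Term (Fin (0 + (n + 1)))).equal
      (t.relabel fun i : Fin n => (Fin.natAdd 0 i.castSucc : Fin (0 + (n + 1)))))
    (Language.BoundedFormula.IsAtomic.equal _ _).isQF

theorem realize_chiR {M : Type w} [L.Structure M] {n : ℕ} (t : L.Term (Fin n))
    (x : Fin 0 → M) (y : Fin (n + 1) → M) :
    (chiR t).Realize M (Fin.append x y) ↔ t.realize (y ∘ Fin.castSucc) = y (Fin.last n) := by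
  unfold chiR
  simp only [InfForm.Realize]
  rw [Language.Formula.realize_equal, Language.Term.realize_relabel]
  have h1 : Fin.append x y ∘ (fun i : Fin n => (Fin.natAdd 0 i.castSucc : Fin (0 + (n + 1)))) =
      y ∘ Fin.castSucc := by
    funext i
    exact Fin.append_right x y i.castSucc
  rw [h1, Language.Term.realize_var, Fin.append_right]
  exact eq_comm

/-- If every tuple satisfying all universal formulas true of the generating tuple `a` generates
`A`, then `A` has a d-Σ₂ Scott sentence. -/
theorem exists_dsigma_two [Countable (Σ l, L.Functions l)] [Countable (Σ l, L.Relations l)]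
    (A : Type w) [L.Structure A] {n : ℕ} (a : Fin n → A)
    (hgen : ∀ x : A, ∃ t : L.Term (Fin n), t.realize a = x)
    (H : ∀ b : Fin n → A,
      (∀ (m : ℕ) (θ : L.Formula (Fin (m + n))), θ.IsQF →
        (∀ y : Fin m → A, θ.Realize (Fin.append y a)) →
          ∀ y : Fin m → A, θ.Realize (Fin.append y b)) →
      ∀ x : A, ∃ t : L.Term (Fin n), t.realize b = x) :
    ∃ φ : InfForm L 0, IsDSigma 2 φ ∧ ∀ (M : Type w') [L.Structure M],
      φ.Realize M (Fin.elim0 : Fin 0 → M) ↔ Nonempty (M ≃[L] A) := by
  classical
  -- the universal formulas true of `a`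
  let T := {p : Σ m : ℕ, L.Formula (Fin (m + n)) // p.2.IsQF ∧
    ∀ y : Fin p.1 → A, p.2.Realize (Fin.append y a)}
  have hsym : Countable L.Symbols := by
    unfold Language.Symbols
    infer_instance
  have hTc : Countable T := by
    have h1 : ∀ m, Countable (L.Formula (Fin (m + n))) := fun m => inferInstance
    have h2 : Countable (Σ m : ℕ, L.Formula (Fin (m + n))) := inferInstance
    exact Subtype.countable
  have hTn : Nonempty T := ⟨⟨⟨0, ⊤⟩, Language.BoundedFormula.IsQF.top, fun y => by
    simp⟩⟩
  obtain ⟨e, he⟩ := exists_surjective_nat T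
  have hUc : Countable (T ⊕ L.Term (Fin n)) := by
    have h1 : Countable (L.Term (Fin n)) := inferInstance
    infer_instance
  obtain ⟨g, hg⟩ := exists_surjective_nat (T ⊕ L.Term (Fin n))
  -- the `Σ₂` part
  let σ : InfForm L 0 := .disj fun _ => .exs n (.conj fun i =>
    .alls (e i).1.1 (.qf (e i).1.2 (e i).2.1))
  -- the `Π₂` part
  let kk : T ⊕ L.Term (Fin n) → ℕ := fun c => Sum.elim (fun p => p.1.1) (fun _ => 0) c
  let χ : ∀ c : T ⊕ L.Term (Fin n), InfForm L (kk c + (n + 1)) := fun c =>
    match c with
    | .inl p => chiL p.1.2 p.2.1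
    | .inr t => chiR t
  let π : InfForm L 0 := .conj fun _ => .alls (n + 1) (.disj fun j =>
    .exs (kk (g j)) (χ (g j)))
  -- semantics of the two parts
  have hσ : ∀ (M : Type w') [L.Structure M], σ.Realize M (Fin.elim0 : Fin 0 → M) ↔
      ∃ x : Fin n → M, ∀ p : T, ∀ y : Fin p.1.1 → M, p.1.2.Realize (Fin.append y x) := by
    intro M _
    constructor
    · rintro ⟨_, x, hx⟩
      refine ⟨x, fun p y => ?_⟩
      obtain ⟨i, rfl⟩ := he p
      have := hx i y
      simp only [InfForm.Realize] at this
      rwa [append_elim0 x Fin.elim0] at this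
    · rintro ⟨x, hx⟩
      refine ⟨0, x, fun i y => ?_⟩
      simp only [InfForm.Realize]
      rw [append_elim0 x Fin.elim0]
      exact hx _ y
  have hπ : ∀ (M : Type w') [L.Structure M], π.Realize M (Fin.elim0 : Fin 0 → M) ↔
      ∀ (x : Fin n → M) (z : M), (∀ p : T, ∀ y : Fin p.1.1 → M, p.1.2.Realize (Fin.append y x)) →
        ∃ t : L.Term (Fin n), t.realize x = z := by
    intro M _
    have h2 : ∀ (y : Fin (n + 1) → M) (c : T ⊕ L.Term (Fin n)),
        (∃ w : Fin (kk c) → M, (χ c).Realize M (Fin.append w y)) ↔
          Sum.elim (fun p : T => ∃ w : Fin p.1.1 → M, ¬ p.1.2.Realize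
            (Fin.append w (y ∘ Fin.castSucc)))
          (fun t : L.Term (Fin n) => t.realize (y ∘ Fin.castSucc) = y (Fin.last n)) c := by
      intro y c
      rcases c with p | t
      · exact exists_congr fun w => realize_chiL p.1.2 p.2.1 w y
      · constructor
        · rintro ⟨w, hw⟩
          exact (realize_chiR t w y).1 hw
        · intro hw
          exact ⟨Fin.elim0, (realize_chiR t Fin.elim0 y).2 hw⟩
    constructor
    · intro h x z hx
      obtain ⟨j, hj⟩ := h 0 (Fin.snoc x z : Fin (n + 1) → M)
      have h3 := append_elim0 (n := n + 1) (Fin.snoc x z : Fin (n + 1) → M) Fin.elim0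
      have hj' : ∃ w : Fin (kk (g j)) → M, (χ (g j)).Realize M
          (Fin.append w (Fin.snoc x z : Fin (n + 1) → M)) := by
        rw [← h3]
        exact hj
      rw [h2] at hj'
      have h4 : (Fin.snoc x z : Fin (n + 1) → M) ∘ Fin.castSucc = x := by
        funext i
        simp
      rw [h4, Fin.snoc_last] at hj'
      rcases hgj : g j with p | t
      · rw [hgj] at hj'
        obtain ⟨w, hw⟩ := hj'
        exact absurd (hx p w) hw
      · rw [hgj] at hj'
        exact ⟨t, hj'⟩
    · intro h _ y
      have h3 := append_elim0 (n := n + 1) y Fin.elim0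
      have h5 : ∃ j, ∃ w : Fin (kk (g j)) → M, (χ (g j)).Realize M (Fin.append w y) := by
        by_cases hx : ∀ p : T, ∀ w : Fin p.1.1 → M, p.1.2.Realize
            (Fin.append w (y ∘ Fin.castSucc))
        · obtain ⟨t, ht⟩ := h (y ∘ Fin.castSucc) (y (Fin.last n)) hx
          obtain ⟨j, hj⟩ := hg (.inr t)
          refine ⟨j, ?_⟩
          rw [h2, hj]
          exact ht
        · push Not at hx
          obtain ⟨p, w, hw⟩ := hx
          obtain ⟨j, hj⟩ := hg (.inl p)
          refine ⟨j, ?_⟩
          rw [h2, hj]
          exact ⟨w, hw⟩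
      obtain ⟨j, hj⟩ := h5
      refine ⟨j, ?_⟩
      show ∃ w : Fin (kk (g j)) → M, (χ (g j)).Realize M (Fin.append w
        (Fin.append (m := n + 1) (n := 0) y Fin.elim0))
      rw [h3]
      exact hj
  refine ⟨σ.and π, ⟨σ, π, ?_, ?_, rfl⟩, ?_⟩
  · exact IsSigma.pos (fun _ => n) _ (fun _ => 1) (fun _ => by norm_num) fun _ =>
      IsPi.pos (fun i => (e i).1.1) (fun i => .qf (e i).1.2 (e i).2.1) (fun _ => 0)
        (fun _ => by norm_num) fun i => IsSigma.zero _ _
  · refine IsPi.pos (fun _ => n + 1) _ (fun _ => 1) (fun _ => by norm_num) fun _ =>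
      IsSigma.pos (fun j => kk (g j)) (fun j => χ (g j)) (fun _ => 0)
        (fun _ => by norm_num) fun j => ?_
    rcases hgj : g j with p | t
    · exact IsPi.zero _ _
    · exact IsPi.zero _ _
  intro M _
  rw [InfForm.realize_and, hσ, hπ]
  constructor
  · rintro ⟨⟨x, hx⟩, hM⟩
    -- quantifier-free formulas true of `a` are true of `x`
    have hqf : ∀ θ : L.Formula (Fin n), θ.IsQF → θ.Realize a → θ.Realize x := by
      intro θ hθ ha
      have h1 : ∀ {N : Type w} (y : Fin 0 → N) (b : Fin n → N),
          Fin.append y b ∘ (Fin.natAdd 0 : Fin n → Fin (0 + n)) = b := by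
        intro N y b
        funext i
        exact Fin.append_right y b i
      have h1' : ∀ {N : Type w'} (y : Fin 0 → N) (b : Fin n → N),
          Fin.append y b ∘ (Fin.natAdd 0 : Fin n → Fin (0 + n)) = b := by
        intro N y b
        funext i
        exact Fin.append_right y b i
      have h2 := hx ⟨⟨0, θ.relabel (Fin.natAdd 0 : Fin n → Fin (0 + n))⟩, hθ.relabel _, fun y => by
        show (θ.relabel (Fin.natAdd 0 : Fin n → Fin (0 + n))).Realize (Fin.append y a)
        rw [Language.Formula.realize_relabel, h1]
        exact ha⟩ Fin.elim0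
      have h3 : (θ.relabel (Fin.natAdd 0 : Fin n → Fin (0 + n))).Realize
        (Fin.append (Fin.elim0 : Fin 0 → M) x) := h2
      rw [Language.Formula.realize_relabel, h1'] at h3
      exact h3
    have hqf' : ∀ θ : L.Formula (Fin n), θ.IsQF → (θ.Realize a ↔ θ.Realize x) := by
      intro θ hθ
      refine ⟨hqf θ hθ, fun h => ?_⟩
      by_contra h0
      have := hqf θ.not hθ.not (by rwa [Language.Formula.realize_not])
      rw [Language.Formula.realize_not] at this
      exact this h
    have heq : ∀ s t : L.Term (Fin n), s.realize a = t.realize a ↔ s.realize x = t.realize x := by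
      intro s t
      have := hqf' (s.equal t) (Language.BoundedFormula.IsAtomic.equal _ _).isQF
      rwa [Language.Formula.realize_equal, Language.Formula.realize_equal] at this
    have hgenM : ∀ z : M, ∃ t : L.Term (Fin n), t.realize x = z := fun z => hM x z hx
    choose tA htA using hgen
    choose tM htM using hgenM
    have e1 : ∀ t : L.Term (Fin n), (tM (t.realize x)).realize a = t.realize a := fun t => by
      rw [heq, htM]
    have e2 : ∀ t : L.Term (Fin n), (tA (t.realize a)).realize x = t.realize x := fun t => by
      rw [← heq, htA]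
    refine ⟨{ toFun := fun z => (tM z).realize a
              invFun := fun z => (tA z).realize x
              left_inv := fun z => ?_
              right_inv := fun z => ?_
              map_fun' := ?_
              map_rel' := ?_ }⟩
    · exact (e2 (tM z)).trans (htM z)
    · exact (e1 (tA z)).trans (htA z)
    · intro k F z
      have h1 : z = fun i => (tM (z i)).realize x := funext fun i => (htM _).symm
      have h2 : Language.Structure.funMap F z =
          (Language.Term.func F fun i => tM (z i)).realize x := by
        rw [Language.Term.realize_func, ← h1]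
      show (tM (Language.Structure.funMap F z)).realize a =
        Language.Structure.funMap F fun i => (tM (z i)).realize a
      rw [h2, e1]
      rfl
    · intro k R z
      have h1 : z = fun i => (tM (z i)).realize x := funext fun i => (htM _).symm
      have h2 := hqf' (R.formula fun i => tM (z i))
        (Language.BoundedFormula.IsAtomic.rel _ _).isQF
      rw [Language.Formula.realize_rel, Language.Formula.realize_rel, ← h1] at h2
      exact h2
  · rintro ⟨f⟩
    refine ⟨⟨f.symm ∘ a, fun p y => ?_⟩, fun x z hx => ?_⟩
    · have h1 := p.2.2 (f ∘ y)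
      have h2 : Fin.append (f ∘ y) a = f ∘ Fin.append y (f.symm ∘ a) := by
        funext i
        refine Fin.addCases (fun j => ?_) (fun j => ?_) i <;> simp
      rw [h2] at h1
      exact (Language.StrongHomClass.realize_formula f p.1.2).1 h1
    · obtain ⟨t, ht⟩ := H (f ∘ x) (fun m θ hθ hy y => by
        have h1 := hx ⟨⟨m, θ⟩, hθ, hy⟩ (f.symm ∘ y)
        have h2 : Fin.append y (f ∘ x) = f ∘ Fin.append (f.symm ∘ y) x := by
          funext i
          refine Fin.addCases (fun j => ?_) (fun j => ?_) i <;> simp
        rw [h2]
        exact (Language.StrongHomClass.realize_formula f θ).2 h1) (f z)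
      refine ⟨t, f.injective ?_⟩
      rw [← ht]
      exact (Language.HomClass.realize_term f).symm

end Pool.Agent.J4H96.Scott
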